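import Mathlib

namespace Pool.Agent.Lib.MP_97bd52_lc

open scoped RealInnerProductSpace

variable {E : Type*} [NormedAddCommGroup E] [InnerProductSpace ℝ E] [FiniteDimensional ℝ E]

/-- The cosine of the angle between `A` and `B`, modulo `C`, is at most `ε`. -/
def Ang (A B C : Submodule ℝ E) (ε : ℝ) : Prop :=
  ∀ u ∈ A, ∀ w ∈ B, u ∈ Cᗮ → w ∈ Cᗮ → ⟪u, w⟫ ≤ ε * (‖u‖ * ‖w‖)

omit [FiniteDimensional ℝ E] in
theorem Ang.symm {A B C : Submodule ℝ E} {ε : ℝ} (h : Ang A B C ε) : Ang B A C ε := by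
  intro u hu w hw hu' hw'
  rw [real_inner_comm, mul_comm ‖u‖]
  exact h w hw u hu hw' hu'

omit [FiniteDimensional ℝ E] in
theorem Ang.mono {A B C : Submodule ℝ E} {ε ε' : ℝ} (h : Ang A B C ε) (hε : ε ≤ ε') :
    Ang A B C ε' := fun u hu w hw hu' hw' =>
  (h u hu w hw hu' hw').trans (mul_le_mul_of_nonneg_right hε (by positivity))

theorem exists_ang_lt_one (A B C : Submodule ℝ E) (h : A ⊓ B ≤ C) :
    ∃ γ, 0 ≤ γ ∧ γ < 1 ∧ Ang A B C γ := by
  let K : Set (E × E) := (((A ⊓ Cᗮ : Submodule ℝ E) : Set E) ∩ Metric.sphere (0 : E) 1) ×ˢ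
    (((B ⊓ Cᗮ : Submodule ℝ E) : Set E) ∩ Metric.sphere (0 : E) 1)
  have hK : IsCompact K := by
    refine IsCompact.prod ?_ ?_
    · exact (isCompact_sphere (0 : E) 1).inter_left (Submodule.closed_of_finiteDimensional _)
    · exact (isCompact_sphere (0 : E) 1).inter_left (Submodule.closed_of_finiteDimensional _)
  have key : ∃ γ, 0 ≤ γ ∧ γ < 1 ∧ ∀ z ∈ K, ⟪z.1, z.2⟫ ≤ γ := by
    rcases K.eq_empty_or_nonempty with hK0 | hK0
    · exact ⟨0, le_rfl, one_pos, by simp [hK0]⟩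
    · obtain ⟨z, hz, hmax⟩ := hK.exists_isMaxOn hK0
        (f := fun z : E × E => ⟪z.1, z.2⟫) (by fun_prop)
      refine ⟨max 0 ⟪z.1, z.2⟫, le_max_left _ _, max_lt one_pos ?_,
        fun y hy => (hmax hy).trans (le_max_right _ _)⟩
      obtain ⟨⟨h1, h2⟩, h3, h4⟩ := hz
      have n1 : ‖z.1‖ = 1 := by simpa using h2
      have n2 : ‖z.2‖ = 1 := by simpa using h4
      rw [inner_lt_one_iff_real_of_norm_eq_one n1 n2]
      intro he
      have hC : z.1 ∈ C := h ⟨h1.1, he ▸ h3.1⟩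
      have : ⟪z.1, z.1⟫ = 0 := h1.2 _ hC
      rw [inner_self_eq_zero] at this
      rw [this] at n1
      simp at n1
  obtain ⟨γ, h0, h1, h2⟩ := key
  refine ⟨γ, h0, h1, fun u hu w hw hu' hw' => ?_⟩
  rcases eq_or_ne u 0 with rfl | hu0
  · simp
  rcases eq_or_ne w 0 with rfl | hw0
  · simp
  have pu : 0 < ‖u‖ := norm_pos_iff.2 hu0
  have pw : 0 < ‖w‖ := norm_pos_iff.2 hw0
  have := h2 (‖u‖⁻¹ • u, ‖w‖⁻¹ • w) ⟨⟨Submodule.smul_mem _ _ ⟨hu, hu'⟩, by
      simp [norm_smul, pu.ne']⟩, Submodule.smul_mem _ _ ⟨hw, hw'⟩, by simp [norm_smul, pw.ne']⟩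
  simp only [inner_smul_left, inner_smul_right, conj_trivial] at this
  have e : ⟪u, w⟫ = (‖w‖⁻¹ * (‖u‖⁻¹ * ⟪u, w⟫)) * (‖u‖ * ‖w‖) := by field_simp
  rw [e]
  exact mul_le_mul_of_nonneg_right this (by positivity)

theorem norm_proj_le {A D C : Submodule ℝ E} {γ : ℝ} (hγ : 0 ≤ γ) (hC : C ≤ D)
    (h : Ang A D C γ) {u : E} (hu : u ∈ A) (hu' : u ∈ Cᗮ) :
    ‖D.starProjection u‖ ≤ γ * ‖u‖ := by
  have ha : D.starProjection u ∈ Cᗮ := by
    intro c hc
    rw [← Submodule.inner_starProjection_left_eq_right,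
      Submodule.starProjection_eq_self_iff.2 (hC hc)]
    exact hu' c hc
  have h1 := h u hu _ (D.starProjection_apply_mem u) hu' ha
  have h2 : ⟪u, D.starProjection u⟫ = ‖D.starProjection u‖ ^ 2 := by
    have := Submodule.starProjection_inner_eq_zero u _ (D.starProjection_apply_mem u)
    rw [inner_sub_left, real_inner_self_eq_norm_sq] at this
    linarith
  rcases (norm_nonneg (D.starProjection u)).eq_or_lt with h0 | h0
  · rw [← h0]; positivity
  · rw [h2] at h1
    nlinarith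

theorem inner_split (D : Submodule ℝ E) (u w : E) :
    ⟪u, w⟫ = ⟪D.starProjection u, D.starProjection w⟫ +
      ⟪u - D.starProjection u, w - D.starProjection w⟫ := by
  have h1 := Submodule.starProjection_inner_eq_zero u _ (D.starProjection_apply_mem w)
  have h2 := Submodule.starProjection_inner_eq_zero w _ (D.starProjection_apply_mem u)
  rw [real_inner_comm] at h2
  simp only [inner_sub_left, inner_sub_right] at h1 h2 ⊢
  linarith

theorem trickle_step {V1 V3 A B D C : Submodule ℝ E} {ε γ : ℝ} (hε : 0 ≤ ε) (hε1 : ε ≤ 1)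
    (hγ : 0 ≤ γ) (hA : A ≤ V1) (hB : B ≤ V3) (hD1 : D ≤ V1) (hD3 : D ≤ V3) (hC : C ≤ D)
    (h13 : Ang V1 V3 D ε) (hAD : Ang A D C γ) (hBD : Ang B D C γ) :
    Ang A B C (ε + (1 - ε) * γ ^ 2) := by
  intro u hu w hw hu' hw'
  have a1 := norm_proj_le hγ hC hAD hu hu'
  have a2 := norm_proj_le hγ hC hBD hw hw'
  have s := inner_split D u w
  have b1 := h13 _ (V1.sub_mem (hA hu) (hD1 (D.starProjection_apply_mem u))) _
    (V3.sub_mem (hB hw) (hD3 (D.starProjection_apply_mem w)))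
    (Submodule.sub_starProjection_mem_orthogonal u) (Submodule.sub_starProjection_mem_orthogonal w)
  have b2 := real_inner_le_norm (D.starProjection u) (D.starProjection w)
  have n1 := D.norm_sq_eq_add_norm_sq_starProjection u
  have n2 := D.norm_sq_eq_add_norm_sq_starProjection w
  rw [Submodule.starProjection_orthogonal_val] at n1 n2
  set a := ‖D.starProjection u‖
  set b := ‖D.starProjection w‖
  set a' := ‖u - D.starProjection u‖
  set b' := ‖w - D.starProjection w‖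
  have pa : 0 ≤ a := norm_nonneg _
  have pb : 0 ≤ b := norm_nonneg _
  have pa' : 0 ≤ a' := norm_nonneg _
  have pb' : 0 ≤ b' := norm_nonneg _
  have cs : a * b + a' * b' ≤ ‖u‖ * ‖w‖ := by
    apply le_of_sq_le_sq _ (by positivity)
    rw [mul_pow, n1, n2]
    nlinarith [sq_nonneg (a * b' - a' * b)]
  have ab : a * b ≤ γ ^ 2 * (‖u‖ * ‖w‖) := by
    calc a * b ≤ (γ * ‖u‖) * (γ * ‖w‖) := mul_le_mul a1 a2 pb (by positivity)
      _ = _ := by ring
  have t1 := mul_le_mul_of_nonneg_left cs hε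
  have t2 := mul_le_mul_of_nonneg_left ab (sub_nonneg.2 hε1)
  nlinarith

theorem trickle {V1 V2 V3 V12 V23 V31 C : Submodule ℝ E} {ε : ℝ} (hε : 0 ≤ ε) (hε1 : ε ≤ 1)
    (a1 : V12 ≤ V1) (a2 : V12 ≤ V2) (b2 : V23 ≤ V2) (b3 : V23 ≤ V3) (c3 : V31 ≤ V3)
    (c1 : V31 ≤ V1) (d1 : C ≤ V12) (d2 : C ≤ V23) (d3 : C ≤ V31)
    (e1 : V12 ⊓ V23 ≤ C) (e2 : V23 ⊓ V31 ≤ C) (e3 : V31 ⊓ V12 ≤ C)
    (h12 : Ang V1 V2 V12 ε) (h23 : Ang V2 V3 V23 ε) (h31 : Ang V3 V1 V31 ε) :
    Ang V12 V23 C (2 * ε) := by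
  let Γ : Set ℝ := {γ | 0 ≤ γ ∧ Ang V12 V23 C γ ∧ Ang V23 V31 C γ ∧ Ang V31 V12 C γ}
  obtain ⟨g1, p1, q1, r1⟩ := exists_ang_lt_one V12 V23 C e1
  obtain ⟨g2, p2, q2, r2⟩ := exists_ang_lt_one V23 V31 C e2
  obtain ⟨g3, p3, q3, r3⟩ := exists_ang_lt_one V31 V12 C e3
  have hg : max g1 (max g2 g3) ∈ Γ :=
    ⟨le_max_of_le_left p1, r1.mono (le_max_left _ _),
      r2.mono (le_max_of_le_right (le_max_left _ _)),
      r3.mono (le_max_of_le_right (le_max_right _ _))⟩
  have hbdd : BddBelow Γ := ⟨0, fun γ h => h.1⟩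
  have hne : Γ.Nonempty := ⟨_, hg⟩
  have hclosed : IsClosed Γ := by
    have cl : ∀ A B : Submodule ℝ E, IsClosed {γ : ℝ | Ang A B C γ} := by
      intro A B
      simp only [Ang, Set.ofPred_forall]
      refine isClosed_iInter fun u => isClosed_iInter fun _ => isClosed_iInter fun w =>
        isClosed_iInter fun _ => isClosed_iInter fun _ => isClosed_iInter fun _ => ?_
      exact isClosed_le continuous_const (by fun_prop)
    exact (isClosed_Ici (a := (0 : ℝ))).inter ((cl _ _).inter ((cl _ _).inter (cl _ _)))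
  have hmem := hclosed.csInf_mem hne hbdd
  set γ := sInf Γ
  obtain ⟨g0, k1, k2, k3⟩ := hmem
  have hlt : γ < 1 := (csInf_le hbdd hg).trans_lt (max_lt q1 (max_lt q2 q3))
  have hstep : ε + (1 - ε) * γ ^ 2 ∈ Γ := by
    refine ⟨by have := sub_nonneg.2 hε1; positivity, ?_, ?_, ?_⟩
    · exact trickle_step hε hε1 g0 a1 b3 c1 c3 d3 h31.symm k3.symm k2
    · exact trickle_step hε hε1 g0 b2 c1 a2 a1 d1 h12.symm k1.symm k3
    · exact trickle_step hε hε1 g0 c3 a2 b3 b2 d2 h23.symm k2.symm k1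
  have hle : γ ≤ ε + (1 - ε) * γ ^ 2 := csInf_le hbdd hstep
  refine k1.mono ?_
  have : (1 - γ) * γ ≤ (1 - γ) * (ε * (1 + γ)) := by nlinarith
  have h3 : γ ≤ ε * (1 + γ) := le_of_mul_le_mul_left this (by linarith)
  nlinarith

theorem norm_proj_proj {A B D : Submodule ℝ E} {ε : ℝ} (hε : 0 ≤ ε) (hA : D ≤ A) (hB : D ≤ B)
    (h : Ang A B D ε) (s : E) :
    ‖B.starProjection (A.starProjection s) - D.starProjection s‖ ≤ ε * ‖s‖ := by
  have hu : A.starProjection s - D.starProjection s ∈ A :=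
    A.sub_mem (A.starProjection_apply_mem s) (hA (D.starProjection_apply_mem s))
  have hu' : A.starProjection s - D.starProjection s ∈ Dᗮ := by
    intro c hc
    rw [inner_sub_right, ← Submodule.inner_starProjection_left_eq_right,
      ← Submodule.inner_starProjection_left_eq_right,
      Submodule.starProjection_eq_self_iff.2 (hA hc), Submodule.starProjection_eq_self_iff.2 hc,
      sub_self]
  have h1 := norm_proj_le hε hB h hu hu'
  rw [map_sub, Submodule.starProjection_eq_self_iff.2 (hB (D.starProjection_apply_mem s))] at h1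
  refine h1.trans (mul_le_mul_of_nonneg_left ?_ hε)
  have e : A.starProjection s - D.starProjection s = A.starProjection (s - D.starProjection s) := by
    rw [map_sub, Submodule.starProjection_eq_self_iff.2 (hA (D.starProjection_apply_mem s))]
  rw [e]
  refine (A.norm_starProjection_apply_le _).trans ?_
  rw [← Submodule.starProjection_orthogonal_val]
  exact Dᗮ.norm_starProjection_apply_le s

theorem three_step {V1 V2 V3 V12 V23 C : Submodule ℝ E} {ε : ℝ} (hε : 0 ≤ ε) (hε1 : ε ≤ 1)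
    (a1 : V12 ≤ V1) (a2 : V12 ≤ V2) (b2 : V23 ≤ V2) (b3 : V23 ≤ V3)
    (d1 : C ≤ V12) (d2 : C ≤ V23)
    (h12 : Ang V1 V2 V12 ε) (h23 : Ang V2 V3 V23 ε) (h : Ang V12 V23 C (2 * ε)) (s : E) :
    ⟪s, V1.starProjection (V2.starProjection (V3.starProjection s))⟫ ≤
      ‖C.starProjection s‖ ^ 2 + 5 * ε * ‖s‖ ^ 2 := by
  have e0 : ⟪s, V1.starProjection (V2.starProjection (V3.starProjection s))⟫ =
      ⟪V2.starProjection (V1.starProjection s), V2.starProjection (V3.starProjection s)⟫ := by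
    rw [← Submodule.inner_starProjection_left_eq_right, Submodule.inner_starProjection_left_eq_right V2,
      Submodule.starProjection_eq_self_iff.2 (V2.starProjection_apply_mem _)]
  have n1 := norm_proj_proj hε a1 a2 h12 s
  have n2 := norm_proj_proj hε b3 b2 h23.symm s
  have n3 := norm_proj_proj (by positivity) d1 d2 h s
  set x := V2.starProjection (V1.starProjection s)
  set y := V2.starProjection (V3.starProjection s)
  set a := V12.starProjection s
  set b := V23.starProjection s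
  have ha : ‖a‖ ≤ ‖s‖ := V12.norm_starProjection_apply_le s
  have hb : ‖b‖ ≤ ‖s‖ := V23.norm_starProjection_apply_le s
  have e1 : ⟪x, y⟫ = ⟪a, b⟫ + ⟪x - a, b⟫ + ⟪a, y - b⟫ + ⟪x - a, y - b⟫ := by
    simp only [inner_sub_left, inner_sub_right]; ring
  have e2 : ⟪a, b⟫ = ‖C.starProjection s‖ ^ 2 + ⟪V23.starProjection a - C.starProjection s, s⟫ := by
    have : ⟪C.starProjection s, s⟫ = ‖C.starProjection s‖ ^ 2 := by
      have := Submodule.starProjection_inner_eq_zero s _ (C.starProjection_apply_mem s)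
      rw [inner_sub_left, real_inner_self_eq_norm_sq, real_inner_comm] at this
      linarith
    rw [inner_sub_left, this, Submodule.inner_starProjection_left_eq_right V23]
    ring
  have ps := norm_nonneg s
  have i1 := (real_inner_le_norm (x - a) b).trans (mul_le_mul n1 hb (norm_nonneg _) (by positivity))
  have i2 := (real_inner_le_norm a (y - b)).trans (mul_le_mul ha n2 (norm_nonneg _) ps)
  have i3 := (real_inner_le_norm (x - a) (y - b)).trans
    (mul_le_mul n1 n2 (norm_nonneg _) (by positivity))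
  have i4 := (real_inner_le_norm (V23.starProjection a - C.starProjection s) s).trans
    (mul_le_mul_of_nonneg_right n3 ps)
  have i5 : ε * ‖s‖ * (ε * ‖s‖) ≤ ε * ‖s‖ ^ 2 := by
    have : ε * (ε * ‖s‖ ^ 2) ≤ 1 * (ε * ‖s‖ ^ 2) :=
      mul_le_mul_of_nonneg_right hε1 (by positivity)
    nlinarith
  rw [e0, e1, e2]
  nlinarith

end Pool.Agent.Lib.MP_97bd52_lc
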