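import Mathlib

namespace Pool.Agent.Lib.MP_97bd52_lc

open Module Matrix

variable {F : Type*} [Field F] {ι : Type*} [Fintype ι]

/-- Dual code. -/
def perp (W : Submodule F (ι → F)) : Submodule F (ι → F) :=
  LinearMap.BilinForm.orthogonal (dotProductBilin F F) W

theorem mem_perp {W : Submodule F (ι → F)} {f : ι → F} : f ∈ perp W ↔ ∀ w ∈ W, w ⬝ᵥ f = 0 :=
  Iff.rfl

theorem dot_nondeg : LinearMap.BilinForm.Nondegenerate (dotProductBilin F F : (ι → F) →ₗ[F] _) := by
  classical
  constructor
  · intro x hx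
    funext i
    simpa [dotProductBilin] using hx (Pi.single i 1)
  · intro x hx
    funext i
    simpa [dotProductBilin] using hx (Pi.single i 1)

theorem dot_refl : LinearMap.BilinForm.IsRefl (dotProductBilin F F : (ι → F) →ₗ[F] _) := by
  intro x y h
  have h' : x ⬝ᵥ y = 0 := h
  show y ⬝ᵥ x = 0
  rw [dotProduct_comm, h']

theorem finrank_perp (W : Submodule F (ι → F)) :
    finrank F W + finrank F (perp W) = Fintype.card ι := by
  have h := LinearMap.BilinForm.finrank_orthogonal (dot_nondeg (F := F) (ι := ι)) W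
  have h2 := W.finrank_le
  rw [Module.finrank_fintype_fun_eq_card] at h h2
  unfold perp
  omega

theorem perp_perp (W : Submodule F (ι → F)) : perp (perp W) = W :=
  LinearMap.BilinForm.orthogonal_orthogonal dot_nondeg dot_refl W

theorem perp_sup (A B : Submodule F (ι → F)) : perp (A ⊔ B) = perp A ⊓ perp B := by
  ext f
  simp only [mem_perp, Submodule.mem_inf]
  constructor
  · exact fun h => ⟨fun w hw => h w (Submodule.mem_sup_left hw),
      fun w hw => h w (Submodule.mem_sup_right hw)⟩
  · rintro ⟨h1, h2⟩ w hw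
    obtain ⟨a, ha, b, hb, rfl⟩ := Submodule.mem_sup.1 hw
    rw [add_dotProduct, h1 a ha, h2 b hb, add_zero]

theorem eq_perp_of_le {A B : Submodule F (ι → F)} (h : B ≤ perp A)
    (hd : Fintype.card ι ≤ finrank F A + finrank F B) : perp A = B := by
  have := finrank_perp A
  exact (Submodule.eq_of_le_of_finrank_le h (by omega)).symm

theorem finrank_three {V : Type*} [AddCommGroup V] [Module F V] [FiniteDimensional F V]
    (A B C : Submodule F V) :
    finrank F (A ⊔ B ⊔ C : Submodule F V) + finrank F (A ⊓ B : Submodule F V) +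
      finrank F (B ⊓ C : Submodule F V) + finrank F (C ⊓ A : Submodule F V) ≤
      finrank F A + finrank F B + finrank F C + finrank F (A ⊓ B ⊓ C : Submodule F V) := by
  have h1 := Submodule.finrank_sup_add_finrank_inf_eq A B
  have h2 := Submodule.finrank_sup_add_finrank_inf_eq (A ⊔ B) C
  have h3 := Submodule.finrank_sup_add_finrank_inf_eq (B ⊓ C) (C ⊓ A)
  have h4 : finrank F ((B ⊓ C) ⊔ (C ⊓ A) : Submodule F V) ≤
      finrank F ((A ⊔ B) ⊓ C : Submodule F V) := by
    apply Submodule.finrank_mono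
    exact sup_le (inf_le_inf_right _ le_sup_right) (le_inf (inf_le_right.trans le_sup_left) inf_le_left)
  have h5 : (B ⊓ C) ⊓ (C ⊓ A) = A ⊓ B ⊓ C := by
    ext x; simp only [Submodule.mem_inf]; tauto
  rw [h5] at h3
  omega

theorem finrank_drop {V : Type*} [AddCommGroup V] [Module F V] [FiniteDimensional F V]
    (A : Submodule F V) {B B' : Submodule F V} (h : B' ≤ B) :
    finrank F (A ⊓ B : Submodule F V) + finrank F B' ≤
      finrank F (A ⊓ B' : Submodule F V) + finrank F B := by
  have h1 := Submodule.finrank_sup_add_finrank_inf_eq (A ⊓ B) B'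
  have h2 : finrank F ((A ⊓ B) ⊔ B' : Submodule F V) ≤ finrank F B :=
    Submodule.finrank_mono (sup_le inf_le_right h)
  have h3 : A ⊓ B ⊓ B' = A ⊓ B' := by rw [inf_assoc, inf_eq_right.2 h]
  rw [h3] at h1
  omega

/-- The restriction of `W` to the coordinates in `S` is onto. -/
def Onto (W : Submodule F (ι → F)) (S : Finset ι) : Prop :=
  ∀ ρ : ι → F, ∃ w ∈ W, ∀ i ∈ S, w i = ρ i

omit [Fintype ι] in
theorem Onto.mono {W : Submodule F (ι → F)} {S T : Finset ι} (h : Onto W S) (hT : T ⊆ S) :
    Onto W T := fun ρ => by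
  obtain ⟨w, hw, h⟩ := h ρ
  exact ⟨w, hw, fun i hi => h i (hT hi)⟩

/-- Functions vanishing on `S`. -/
def vanish (F : Type*) [Field F] {ι : Type*} (S : Finset ι) : Submodule F (ι → F) where
  carrier := {f | ∀ i ∈ S, f i = 0}
  zero_mem' := fun _ _ => rfl
  add_mem' := fun ha hb i hi => by simp [ha i hi, hb i hi]
  smul_mem' := fun c f hf i hi => by simp [hf i hi]

theorem onto_perp {Z : Submodule F (ι → F)} {S : Finset ι}
    (h : ∀ z ∈ Z, (∀ i ∉ S, z i = 0) → z = 0) : Onto (perp Z) S := by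
  classical
  have h1 : perp (perp Z ⊔ vanish F S) = ⊥ := by
    rw [perp_sup, perp_perp, eq_bot_iff]
    rintro z ⟨hz, hz'⟩
    refine h z hz fun i hi => ?_
    have := hz' (Pi.single i 1) (fun j hj => by
      rw [Pi.single_apply, if_neg]; rintro rfl; exact hi hj)
    simpa [dotProductBilin] using this
  have h2 : perp Z ⊔ vanish F S = ⊤ := by
    apply Submodule.eq_top_of_finrank_eq
    have := finrank_perp (perp Z ⊔ vanish F S)
    rw [h1, finrank_bot] at this
    simpa using this
  intro ρ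
  have : ρ ∈ perp Z ⊔ vanish F S := h2 ▸ Submodule.mem_top
  obtain ⟨a, ha, b, hb, rfl⟩ := Submodule.mem_sup.1 this
  exact ⟨a, ha, fun i hi => by simp [hb i hi]⟩

theorem finrank_inf_vanish_le (W : Submodule F (ι → F)) (S : Finset ι) :
    finrank F W ≤ finrank F (W ⊓ vanish F S : Submodule F (ι → F)) + S.card := by
  let r : W →ₗ[F] (S → F) := (LinearMap.funLeft F F (Subtype.val : S → ι)).domRestrict W
  have h1 := r.finrank_range_add_finrank_ker
  have h2 : finrank F (LinearMap.range r) ≤ S.card := by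
    simpa using (LinearMap.range r).finrank_le
  have h3 : (LinearMap.ker r).map W.subtype = W ⊓ vanish F S := by
    ext f
    simp only [Submodule.mem_map, LinearMap.mem_ker, Submodule.mem_inf]
    constructor
    · rintro ⟨⟨g, hg⟩, h, rfl⟩
      exact ⟨hg, fun i hi => congrFun h ⟨i, hi⟩⟩
    · rintro ⟨hf, h⟩
      exact ⟨⟨f, hf⟩, funext fun i => h i.1 i.2, rfl⟩
  rw [← h3, Submodule.finrank_map_subtype_eq]
  omega

theorem finrank_inf_vanish_of_onto {W : Submodule F (ι → F)} {S : Finset ι} (h : Onto W S) :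
    finrank F (W ⊓ vanish F S : Submodule F (ι → F)) + S.card = finrank F W := by
  classical
  let r : W →ₗ[F] (S → F) := (LinearMap.funLeft F F (Subtype.val : S → ι)).domRestrict W
  have h1 := r.finrank_range_add_finrank_ker
  have h2 : LinearMap.range r = ⊤ := by
    rw [eq_top_iff]
    intro ρ _
    obtain ⟨w, hw, hw'⟩ := h (fun i => if hi : i ∈ S then ρ ⟨i, hi⟩ else 0)
    refine ⟨⟨w, hw⟩, funext fun i => ?_⟩
    have := hw' i.1 i.2
    rw [dif_pos i.2] at this
    exact this
  have h3 : (LinearMap.ker r).map W.subtype = W ⊓ vanish F S := by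
    ext f
    simp only [Submodule.mem_map, LinearMap.mem_ker, Submodule.mem_inf]
    constructor
    · rintro ⟨⟨g, hg⟩, h, rfl⟩
      exact ⟨hg, fun i hi => congrFun h ⟨i, hi⟩⟩
    · rintro ⟨hf, h⟩
      exact ⟨⟨f, hf⟩, funext fun i => h i.1 i.2, rfl⟩
  rw [h2] at h1
  rw [← h3, Submodule.finrank_map_subtype_eq]
  simp only [finrank_top, Module.finrank_fintype_fun_eq_card, Fintype.card_coe] at h1
  omega

theorem exists_info_set (W : Submodule F (ι → F)) :
    ∃ S : Finset ι, finrank F W ≤ S.card ∧ Onto W S := by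
  classical
  obtain ⟨S, hS, hmax⟩ := Finset.exists_max_image
    (Finset.univ.filter fun S : Finset ι => Onto W S) Finset.card
    ⟨∅, by simp only [Finset.mem_filter, Finset.mem_univ, true_and]
           exact fun ρ => ⟨0, W.zero_mem, by simp⟩⟩
  simp only [Finset.mem_filter, Finset.mem_univ, true_and] at hS hmax
  refine ⟨S, ?_, hS⟩
  have h0 : W ⊓ vanish F S = ⊥ := by
    rw [eq_bot_iff]
    rintro f ⟨hf, hf'⟩
    rw [Submodule.mem_bot]
    funext i
    by_contra hi
    have hiS : i ∉ S := fun h => hi (hf' i h)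
    have : Onto W (insert i S) := by
      intro ρ
      obtain ⟨w, hw, hw'⟩ := hS ρ
      refine ⟨w + ((ρ i - w i) / f i) • f, W.add_mem hw (W.smul_mem _ hf), fun j hj => ?_⟩
      rcases Finset.mem_insert.1 hj with rfl | hj
      · have hi' : f j ≠ 0 := hi
        simp only [Pi.add_apply, Pi.smul_apply, smul_eq_mul]
        field_simp
        ring
      · simp [hw' j hj, hf' j hj]
    have := hmax _ this
    rw [Finset.card_insert_of_notMem hiS] at this
    omega
  have := finrank_inf_vanish_le W S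
  rw [h0, finrank_bot] at this
  omega

theorem range_transpose {a : Type*} [Fintype a] (H : Matrix a ι F) :
    perp (LinearMap.ker H.mulVecLin) = LinearMap.range Hᵀ.mulVecLin := by
  classical
  apply eq_perp_of_le
  · rintro _ ⟨y, rfl⟩ w hw
    have hw' : H *ᵥ w = 0 := hw
    show w ⬝ᵥ (Hᵀ *ᵥ y) = 0
    rw [dotProduct_mulVec, vecMul_transpose, hw', zero_dotProduct]
  · have h1 := H.mulVecLin.finrank_range_add_finrank_ker
    have h2 : finrank F (LinearMap.range Hᵀ.mulVecLin) = finrank F (LinearMap.range H.mulVecLin) :=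
      Matrix.rank_transpose H
    rw [Module.finrank_fintype_fun_eq_card] at h1
    omega

section Block

variable [DecidableEq ι] {a b : Type*} [Fintype a] [Fintype b]

/-- The block matrix with a hidden diagonal. -/
def blk (HU : Matrix a ι F) (HV : Matrix b ι F) (c : ι → F) : Matrix (a ⊕ ι) (ι ⊕ b) F :=
  fromBlocks HU 0 (diagonal c) HVᵀ

omit [Fintype a] in
theorem finrank_ker_blk (HU : Matrix a ι F) (HV : Matrix b ι F) (c : ι → F) :
    finrank F (LinearMap.ker (blk HU HV c).mulVecLin) =
      finrank F (LinearMap.ker HU.mulVecLin ⊓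
        (perp (LinearMap.ker HV.mulVecLin)).comap (diagonal c).mulVecLin : Submodule F (ι → F)) +
      finrank F (LinearMap.ker HVᵀ.mulVecLin) := by
  set K := LinearMap.ker (blk HU HV c).mulVecLin
  have memK : ∀ v : ι ⊕ b → F, v ∈ K ↔ HU *ᵥ (v ∘ Sum.inl) = 0 ∧
      diagonal c *ᵥ (v ∘ Sum.inl) + HVᵀ *ᵥ (v ∘ Sum.inr) = 0 := by
    intro v
    show blk HU HV c *ᵥ v = 0 ↔ _
    rw [blk, fromBlocks_mulVec, zero_mulVec, add_zero]
    constructor
    · intro h
      exact ⟨funext fun i => congrFun h (Sum.inl i), funext fun i => congrFun h (Sum.inr i)⟩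
    · rintro ⟨h1, h2⟩
      rw [h1, h2]
      funext i
      rcases i with i | i <;> rfl
  let r : K →ₗ[F] (ι → F) := (LinearMap.funLeft F F (Sum.inl : ι → ι ⊕ b)).domRestrict K
  have h1 := r.finrank_range_add_finrank_ker
  have h2 : LinearMap.range r = LinearMap.ker HU.mulVecLin ⊓
      (perp (LinearMap.ker HV.mulVecLin)).comap (diagonal c).mulVecLin := by
    rw [range_transpose]
    ext u
    constructor
    · rintro ⟨⟨v, hv⟩, rfl⟩
      obtain ⟨e1, e2⟩ := (memK v).1 hv
      refine ⟨e1, -(v ∘ Sum.inr), ?_⟩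
      show HVᵀ *ᵥ (-(v ∘ Sum.inr)) = diagonal c *ᵥ (v ∘ Sum.inl)
      rw [mulVec_neg]
      exact (eq_neg_of_add_eq_zero_left e2).symm
    · rintro ⟨e1, y, e2⟩
      have e2' : HVᵀ *ᵥ y = diagonal c *ᵥ u := e2
      refine ⟨⟨Sum.elim u (-y), (memK _).2 ⟨e1, ?_⟩⟩, rfl⟩
      show diagonal c *ᵥ u + HVᵀ *ᵥ (-y) = 0
      rw [mulVec_neg, e2', add_neg_cancel]
  let z : (b → F) →ₗ[F] (ι ⊕ b → F) :=
    { toFun := fun y => Sum.elim 0 y
      map_add' := fun x y => by funext i; rcases i with i | i <;> simp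
      map_smul' := fun t y => by funext i; rcases i with i | i <;> simp }
  have hz : Function.Injective z := fun x y h => funext fun i => congrFun h (Sum.inr i)
  have h3 : (LinearMap.ker r).map K.subtype = (LinearMap.ker HVᵀ.mulVecLin).map z := by
    ext v
    simp only [Submodule.mem_map, LinearMap.mem_ker]
    constructor
    · rintro ⟨⟨v, hv⟩, h, rfl⟩
      have h' : v ∘ Sum.inl = 0 := h
      obtain ⟨-, e2⟩ := (memK v).1 hv
      rw [h', mulVec_zero, zero_add] at e2
      refine ⟨v ∘ Sum.inr, e2, ?_⟩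
      funext i
      rcases i with i | i
      · exact (congrFun h' i).symm
      · rfl
    · rintro ⟨y, hy, rfl⟩
      have hy' : HVᵀ *ᵥ y = 0 := hy
      refine ⟨⟨z y, (memK _).2 ⟨?_, ?_⟩⟩, rfl, rfl⟩
      · show HU *ᵥ 0 = 0
        rw [mulVec_zero]
      · show diagonal c *ᵥ 0 + HVᵀ *ᵥ y = 0
        rw [mulVec_zero, hy', add_zero]
  have h4 : finrank F (LinearMap.ker r) = finrank F (LinearMap.ker HVᵀ.mulVecLin) := by
    rw [← Submodule.finrank_map_subtype_eq, h3]
    exact (Submodule.equivMapOfInjective z hz _).finrank_eq.symm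
  rw [← h1, h2, h4]

omit [Fintype a] in
/-- The rank gap: `W` kills the products, `K` is a common information set. -/
theorem rank_gap (HU : Matrix a ι F) (HV : Matrix b ι F) (W : Submodule F (ι → F)) (K : Finset ι)
    (hW : ∀ c ∈ W, ∀ u ∈ LinearMap.ker HU.mulVecLin, ∀ v ∈ LinearMap.ker HV.mulVecLin,
      v ⬝ᵥ (diagonal c *ᵥ u) = 0)
    (hU : Onto (LinearMap.ker HU.mulVecLin) K) (hV : Onto (LinearMap.ker HV.mulVecLin) K) :
    ∃ (c0 : ι → F) (r : ℕ), ∀ c ∈ W, (blk HU HV c).rank = r ∧
      (blk HU HV (c0 + c)).rank = r + K.card := by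
  set U := LinearMap.ker HU.mulVecLin
  set V := LinearMap.ker HV.mulVecLin
  let c0 : ι → F := fun i => if i ∈ K then 1 else 0
  have e0 : ∀ c ∈ W, U ⊓ (perp V).comap (diagonal c).mulVecLin = U := fun c hc =>
    inf_eq_left.2 fun u hu v hv => hW c hc u hu v hv
  have e1 : ∀ c ∈ W, U ⊓ (perp V).comap (diagonal (c0 + c)).mulVecLin = U ⊓ vanish F K := by
    intro c hc
    ext u
    simp only [Submodule.mem_inf, Submodule.mem_comap, and_congr_right_iff]
    intro hu
    have key : ∀ v ∈ V, v ⬝ᵥ (diagonal (c0 + c) *ᵥ u) = ∑ i ∈ K, v i * u i := by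
      intro v hv
      have : diagonal (c0 + c) = diagonal c0 + diagonal c := (diagonal_add c0 c).symm
      rw [this, add_mulVec, dotProduct_add, hW c hc u hu v hv, add_zero]
      simp only [dotProduct, mulVec_diagonal, c0, ite_mul, one_mul, zero_mul, mul_ite, mul_zero]
      rw [← Finset.sum_filter]
      simp
    constructor
    · intro h i hi
      obtain ⟨v, hv, hv'⟩ := hV (Pi.single i 1)
      have h1 : v ⬝ᵥ (diagonal (c0 + c) *ᵥ u) = 0 := h v hv
      rw [key v hv, Finset.sum_congr rfl (fun j hj => by rw [hv' j hj]),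
        Finset.sum_eq_single_of_mem i hi (fun j _ hj => by simp [hj])] at h1
      simpa using h1
    · intro h v hv
      show v ⬝ᵥ (diagonal (c0 + c) *ᵥ u) = 0
      rw [key v hv]
      exact Finset.sum_eq_zero fun i hi => by rw [h i hi, mul_zero]
  have d := finrank_inf_vanish_of_onto hU
  refine ⟨c0, Fintype.card (ι ⊕ b) - (finrank F U + finrank F (LinearMap.ker HVᵀ.mulVecLin)),
    fun c hc => ?_⟩
  have k0 := finrank_ker_blk HU HV c
  have k1 := finrank_ker_blk HU HV (c0 + c)
  have r0 := (blk HU HV c).mulVecLin.finrank_range_add_finrank_ker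
  have r1 := (blk HU HV (c0 + c)).mulVecLin.finrank_range_add_finrank_ker
  rw [Module.finrank_fintype_fun_eq_card] at r0 r1
  rw [e0 c hc] at k0
  rw [e1 c hc] at k1
  unfold Matrix.rank
  omega

end Block

end Pool.Agent.Lib.MP_97bd52_lc
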