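import Mathlib
import Pool.Agent.Lib.MP_97bd52_lc.Lin

namespace Pool.Agent.Lib.MP_97bd52_lc

open Module Polynomial Matrix

variable {F : Type*} [Field F]

/-- Evaluation of a polynomial as a function. -/
noncomputable def ev (F : Type*) [Field F] : F[X] →ₗ[F] (F → F) where
  toFun p := fun a => p.eval a
  map_add' p r := by funext a; simp
  map_smul' c p := by funext a; simp

/-- Reed-Solomon code: polynomial functions of degree `< k`. -/
noncomputable def RS (F : Type*) [Field F] (k : ℕ) : Submodule F (F → F) :=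
  (degreeLT F k).map (ev F)

theorem mem_RS {k : ℕ} {f : F → F} :
    f ∈ RS F k ↔ ∃ p : F[X], p.degree < k ∧ ∀ a, f a = p.eval a := by
  simp only [RS, Submodule.mem_map, mem_degreeLT]
  constructor
  · rintro ⟨p, hp, rfl⟩; exact ⟨p, hp, fun _ => rfl⟩
  · rintro ⟨p, hp, h⟩; exact ⟨p, hp, funext fun a => (h a).symm⟩

theorem RS_mono {k l : ℕ} (h : k ≤ l) : RS F k ≤ RS F l := fun f hf => by
  obtain ⟨p, hp, e⟩ := mem_RS.1 hf
  exact mem_RS.2 ⟨p, hp.trans_le (by exact_mod_cast h), e⟩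

theorem RS_zero {f : F → F} (hf : f ∈ RS F 0) : f = 0 := by
  obtain ⟨p, hp, e⟩ := mem_RS.1 hf
  have : p = 0 := by
    rw [← degree_eq_bot]
    simpa using hp
  funext a
  simp [e, this]

theorem pow_mem_RS {e k : ℕ} (h : e < k) : (fun a : F => a ^ e) ∈ RS F k :=
  mem_RS.2 ⟨X ^ e, by rw [degree_X_pow]; exact_mod_cast h, by simp⟩

theorem mul_mem_RS {k l j : ℕ} (h : k + l ≤ j + 1) {f g : F → F} (hf : f ∈ RS F k)
    (hg : g ∈ RS F l) : (fun a => f a * g a) ∈ RS F j := by
  obtain ⟨p, hp, e⟩ := mem_RS.1 hf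
  obtain ⟨r, hr, e'⟩ := mem_RS.1 hg
  refine mem_RS.2 ⟨p * r, ?_, fun a => by simp [e, e']⟩
  rcases eq_or_ne p 0 with rfl | hp0
  · simp
  rcases eq_or_ne r 0 with rfl | hr0
  · simp
  rw [degree_mul, degree_eq_natDegree hp0, degree_eq_natDegree hr0] at *
  have h1 : p.natDegree < k := by exact_mod_cast hp
  have h2 : r.natDegree < l := by exact_mod_cast hr
  have : p.natDegree + r.natDegree < j := by omega
  exact_mod_cast this

theorem shift_mem_RS {k : ℕ} {f : F → F} (hf : f ∈ RS F k) (β : F) :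
    (fun τ => f (β + τ)) ∈ RS F k := by
  obtain ⟨p, hp, e⟩ := mem_RS.1 hf
  refine mem_RS.2 ⟨taylor β p, ?_, fun a => by simp [e, taylor_eval, add_comm]⟩
  rwa [degree_taylor]

theorem lin_pow_mem_RS (w α : F) (c : ℕ) : (fun σ : F => (w + α * σ) ^ c) ∈ RS F (c + 1) := by
  induction c with
  | zero => simpa using pow_mem_RS (F := F) (e := 0) (k := 1) one_pos
  | succ c ih =>
    have h1 : (fun σ : F => w + α * σ) ∈ RS F 2 := by
      have := (RS F 2).add_mem ((RS F 2).smul_mem w (pow_mem_RS (e := 0) two_pos))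
        ((RS F 2).smul_mem α (pow_mem_RS (e := 1) one_lt_two))
      have e : (fun σ : F => w + α * σ) =
          w • (fun a : F => a ^ 0) + α • (fun a : F => a ^ 1) := by funext σ; simp
      rwa [e]
    simpa [pow_succ] using mul_mem_RS (j := c + 1 + 1) (by omega) ih h1

theorem perp_RS_of_forall [Fintype F] {j : ℕ} {f : F → F}
    (h : ∀ e < j, ∑ a : F, a ^ e * f a = 0) : f ∈ perp (RS F j) := by
  intro w hw
  obtain ⟨p, hp, e⟩ := mem_RS.1 hw
  show w ⬝ᵥ f = 0
  rcases eq_or_ne p 0 with rfl | hp0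
  · simp [dotProduct, e]
  have h1 : p.natDegree < j := by
    rw [degree_eq_natDegree hp0] at hp
    exact_mod_cast hp
  simp only [dotProduct, e, eval_eq_sum_range' h1, Finset.sum_mul]
  rw [Finset.sum_comm]
  refine Finset.sum_eq_zero fun i hi => ?_
  simp only [mul_assoc]
  rw [← Finset.mul_sum, h i (Finset.mem_range.1 hi), mul_zero]

variable [Fintype F]

theorem eq_zero_of_ev {p : F[X]} (hp : p.degree < Fintype.card F) (h : ∀ a, p.eval a = 0) :
    p = 0 :=
  eq_zero_of_degree_lt_of_eval_finset_eq_zero Finset.univ (by simpa using hp) fun a _ => h a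

theorem finrank_RS {k : ℕ} (hk : k ≤ Fintype.card F) : finrank F (RS F k) = k := by
  have hinj : Function.Injective ((ev F).domRestrict (degreeLT F k)) := by
    rw [← LinearMap.ker_eq_bot, eq_bot_iff]
    rintro ⟨p, hp⟩ h
    have h' : ev F p = 0 := h
    have : p = 0 := eq_zero_of_ev ((mem_degreeLT.1 hp).trans_le (by exact_mod_cast hk))
      fun a => congrFun h' a
    simp [this]
  have h1 := LinearMap.finrank_range_of_inj hinj
  rw [LinearMap.range_domRestrict] at h1
  rw [RS, h1, (degreeLTEquiv F k).finrank_eq]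
  simp

theorem sum_RS {f : F → F} (hf : f ∈ RS F (Fintype.card F - 1)) : ∑ a, f a = 0 := by
  have h := perp_RS_of_forall (F := F) (j := Fintype.card F - 1) (f := fun _ => 1)
    (fun e he => by simpa using FiniteField.sum_pow_lt_card_sub_one F e he) f hf
  simpa [dotProductBilin, dotProduct] using h

theorem perp_RS {k : ℕ} (hk : k ≤ Fintype.card F) :
    perp (RS F k) = RS F (Fintype.card F - k) := by
  apply eq_perp_of_le
  · intro f hf w hw
    have := Fintype.card_pos (α := F)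
    exact sum_RS (mul_mem_RS (by omega) hw hf)
  · rw [finrank_RS hk, finrank_RS (Nat.sub_le _ _)]
    omega

theorem mem_RS_iff_checks {k : ℕ} (hk : k ≤ Fintype.card F) {f : F → F} :
    f ∈ RS F k ↔ ∀ e < Fintype.card F - k, ∑ a : F, a ^ e * f a = 0 := by
  have h := perp_RS (F := F) (Nat.sub_le (Fintype.card F) k)
  rw [Nat.sub_sub_self hk] at h
  rw [← h]
  exact ⟨fun hf e he => hf _ (pow_mem_RS he), perp_RS_of_forall⟩

theorem weight_RS [DecidableEq F] {μ : ℕ} {f : F → F} (hf : f ∈ RS F (Fintype.card F - μ))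
    (h0 : f ≠ 0) : μ ≤ (Finset.univ.filter fun a => f a ≠ 0).card := by
  obtain ⟨p, hp, e⟩ := mem_RS.1 hf
  by_contra hlt
  have h1 := Finset.card_filter_add_card_filter_not (s := Finset.univ) (fun a => f a ≠ 0)
  rw [Finset.card_univ] at h1
  have : p = 0 := by
    refine eq_zero_of_degree_lt_of_eval_finset_eq_zero
      (Finset.univ.filter fun a => ¬ f a ≠ 0) (hp.trans_le ?_) fun a ha => ?_
    · have : Fintype.card F - μ ≤ (Finset.univ.filter fun a => ¬ f a ≠ 0).card := by omega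
      exact_mod_cast this
    · rw [← e]
      simpa using ha
  apply h0
  funext a
  simp [e, this]

theorem monomial_indep {s : Finset ℕ} (hs : ∀ e ∈ s, e < Fintype.card F) (g : ℕ → F)
    (h : ∀ a : F, ∑ e ∈ s, g e * a ^ e = 0) : ∀ e ∈ s, g e = 0 := by
  have h0 : (∑ e ∈ s, monomial e (g e) : F[X]) = 0 := by
    apply eq_zero_of_ev
    · refine (degree_sum_le _ _).trans_lt ?_
      rw [Finset.sup_lt_iff (by simp)]
      intro e he
      exact (degree_monomial_le _ _).trans_lt (by exact_mod_cast hs e he)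
    · intro a
      simpa [eval_finsetSum] using h a
  intro e he
  have := congrArg (fun p : F[X] => p.coeff e) h0
  simpa [finsetSum_coeff, coeff_monomial, he] using this

/-- `(b,c)` is a good exponent pair for the lifted code of degree `< l`. -/
def Good (F : Type*) [Field F] (l : ℕ) (b c : ℕ) : Prop :=
  ∀ w α : F, (fun σ : F => σ ^ b * (w + α * σ) ^ c) ∈ RS F l

omit [Fintype F] in
theorem good_of_add_lt {l b c : ℕ} (h : b + c < l) : Good F l b c := fun w α =>
  mul_mem_RS (by omega) (pow_mem_RS (Nat.lt_succ_self b)) (lin_pow_mem_RS w α c)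

/-- Good top digits. -/
def tops : Finset (ℕ × ℕ) :=
  (Finset.range 16 ×ˢ Finset.range 16).filter fun p : ℕ × ℕ => ∀ i : ℕ, i < p.2 + 1 →
    (p.2.choose i % 2 = 0 ∨ p.1 + i ≤ 13 ∨ (16 ≤ p.1 + i ∧ p.1 + i ≤ 29))

theorem card_tops : 128 ≤ tops.card := by decide +kernel

theorem good_lifted [CharP F 2] {j r : ℕ} (hr : r = 2 ^ j) (hq : Fintype.card F = 16 * r)
    {b1 c1 b0 c0 : ℕ} (h : (b1, c1) ∈ tops) (hb : b0 < r) (hc : c0 < r) :
    Good F (15 * r) (b1 * r + b0) (c1 * r + c0) := by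
  intro w α
  have : Fact (Nat.Prime 2) := ⟨Nat.prime_two⟩
  have hlow := good_of_add_lt (F := F) (Nat.lt_succ_self (b0 + c0)) w α
  have e : (fun σ : F => σ ^ (b1 * r + b0) * (w + α * σ) ^ (c1 * r + c0)) =
      ∑ i ∈ Finset.range (c1 + 1), ((α ^ r) ^ i * (w ^ r) ^ (c1 - i) * (c1.choose i : F)) •
        (fun σ : F => σ ^ ((b1 + i) * r) * (σ ^ b0 * (w + α * σ) ^ c0)) := by
    funext σ
    have h1 : (w + α * σ) ^ r = α ^ r * σ ^ r + w ^ r := by
      rw [hr, add_pow_char_pow, mul_pow, add_comm]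
    rw [pow_add (w + α * σ), mul_comm c1 r, pow_mul, h1, add_pow, Finset.sum_apply,
      Finset.sum_mul, Finset.mul_sum]
    refine Finset.sum_congr rfl fun i _ => ?_
    simp only [Pi.smul_apply, smul_eq_mul]
    ring
  rw [e]
  refine Submodule.sum_mem _ fun i hi => ?_
  rcases (Finset.mem_filter.1 h).2 i (Finset.mem_range.1 hi) with h2 | h2 | ⟨h2, h3⟩
  · rw [(CharP.cast_eq_zero_iff F 2 _).2 (Nat.dvd_of_mod_eq_zero h2), mul_zero, zero_smul]
    exact Submodule.zero_mem _
  · refine Submodule.smul_mem _ _ (mul_mem_RS ?_ (pow_mem_RS (Nat.lt_succ_self _)) hlow)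
    have : (b1 + i) * r ≤ 13 * r := Nat.mul_le_mul_right _ h2
    omega
  · have e2 : (fun σ : F => σ ^ ((b1 + i) * r)) = fun σ : F => σ ^ ((b1 + i - 16) * r + 1) := by
      funext σ
      have : (b1 + i) * r = (b1 + i - 16) * r + Fintype.card F := by
        rw [hq, ← add_mul, Nat.sub_add_cancel h2]
      rw [this, pow_add, FiniteField.pow_card, pow_succ]
    have hm : (fun σ : F => σ ^ ((b1 + i) * r)) ∈ RS F ((b1 + i - 16) * r + 2) := by
      rw [e2]; exact pow_mem_RS (by omega)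
    refine Submodule.smul_mem _ _ (mul_mem_RS ?_ hm hlow)
    have : (b1 + i - 16) * r ≤ 13 * r := Nat.mul_le_mul_right _ (by simp only at h3; omega)
    omega

theorem exists_good_set [CharP F 2] {j r : ℕ} (hr : r = 2 ^ j) (hq : Fintype.card F = 16 * r) :
    ∃ S : Finset (ℕ × ℕ), 128 * r ^ 2 ≤ S.card ∧
      ∀ p ∈ S, p.1 < Fintype.card F ∧ p.2 < Fintype.card F ∧ Good F (15 * r) p.1 p.2 := by
  have r0 : 0 < r := by rw [hr]; positivity
  refine ⟨(tops ×ˢ (Finset.range r ×ˢ Finset.range r)).image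
    fun x => (x.1.1 * r + x.2.1, x.1.2 * r + x.2.2), ?_, ?_⟩
  · rw [Finset.card_image_of_injOn]
    · simp only [Finset.card_product, Finset.card_range]
      have := card_tops
      nlinarith
    · rintro ⟨⟨a1, a2⟩, a3, a4⟩ ha ⟨⟨b1, b2⟩, b3, b4⟩ hb hab
      simp only [Finset.coe_product, Set.mem_prod, Finset.coe_range, Set.mem_Iio] at ha hb
      simp only [Prod.mk.injEq] at hab ⊢
      have key : ∀ x y u v : ℕ, u < r → v < r → x * r + u = y * r + v → x = y ∧ u = v := by
        intro x y u v hu hv h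
        have h1 := congrArg (· / r) h
        have h2 := congrArg (· % r) h
        simp only [mul_comm x r, mul_comm y r, Nat.mul_add_div r0, Nat.div_eq_of_lt hu,
          Nat.div_eq_of_lt hv, Nat.mul_add_mod, Nat.mod_eq_of_lt hu, Nat.mod_eq_of_lt hv] at h1 h2
        exact ⟨by simpa using h1, h2⟩
      obtain ⟨e1, e2⟩ := key _ _ _ _ ha.2.1 hb.2.1 hab.1
      obtain ⟨e3, e4⟩ := key _ _ _ _ ha.2.2 hb.2.2 hab.2
      exact ⟨⟨e1, e3⟩, e2, e4⟩
  · intro p hp
    obtain ⟨⟨⟨a1, a2⟩, a3, a4⟩, ha, rfl⟩ := Finset.mem_image.1 hp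
    simp only [Finset.mem_product, Finset.mem_range] at ha
    have h16 := (Finset.mem_filter.1 ha.1).1
    simp only [Finset.mem_product, Finset.mem_range] at h16
    have u1 : a1 * r ≤ 15 * r := Nat.mul_le_mul_right _ (by omega)
    have u2 : a2 * r ≤ 15 * r := Nat.mul_le_mul_right _ (by omega)
    exact ⟨by simp only; omega, by simp only; omega, good_lifted hr hq ha.1 ha.2.1 ha.2.2⟩

end Pool.Agent.Lib.MP_97bd52_lc
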