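import Mathlib
import Pool.Agent.Lib.MP_97bd52_lc.RS

namespace Pool.Agent.Lib.MP_97bd52_lc

open Module Matrix

variable {F : Type} [Field F] {G : Type} [Group G] {T : Type}

/-- Functions on `G` all of whose restrictions to the translates `g * φ T` lie in `L`. -/
def Ind (φ : T → G) (L : Submodule F (T → F)) : Submodule F (G → F) where
  carrier := {f | ∀ g, (fun t => f (g * φ t)) ∈ L}
  zero_mem' := fun _ => L.zero_mem
  add_mem' := fun ha hb g => L.add_mem (ha g) (hb g)
  smul_mem' := fun c _ hf g => L.smul_mem c (hf g)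

/-- `φ` parametrises a subgroup, with multiplication law `m`. -/
structure Par (φ : T → G) (m : T → T → T) : Prop where
  inj : Function.Injective φ
  mul : ∀ s t, φ s * φ t = φ (m s t)
  one : ∃ t, φ t = 1
  inv : ∀ s, ∃ t, φ t = (φ s)⁻¹

theorem Par.dec [Fintype G] {φ : T → G} {m : T → T → T} (h : Par φ m) :
    ∃ (Q : Type) (_ : Fintype Q) (s : Q → G),
      Function.Bijective fun p : Q × T => s p.1 * φ p.2 := by
  classical
  let K : Subgroup G :=
    { carrier := Set.range φ
      mul_mem' := by rintro _ _ ⟨s, rfl⟩ ⟨t, rfl⟩; exact ⟨_, (h.mul s t).symm⟩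
      one_mem' := h.one
      inv_mem' := by rintro _ ⟨s, rfl⟩; exact h.inv s }
  refine ⟨G ⧸ K, Fintype.ofFinite _, Quotient.out, ?_, ?_⟩
  · rintro ⟨r, t⟩ ⟨r', t'⟩ e
    have e' : r.out * φ t = r'.out * φ t' := e
    have h1 : ∀ (r : G ⧸ K) (t : T), ((r.out * φ t : G) : G ⧸ K) = r := fun r t => by
      rw [QuotientGroup.mk_mul_of_mem _ (show φ t ∈ K from ⟨t, rfl⟩), QuotientGroup.out_eq']
    have h2 : r = r' := by rw [← h1 r t, e', h1]
    subst h2
    rw [h.inj (mul_left_cancel e')]
  · intro g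
    obtain ⟨⟨k, hk⟩, e⟩ := QuotientGroup.mk_out_eq_mul K g
    obtain ⟨t, ht⟩ := K.inv_mem hk
    refine ⟨((g : G ⧸ K), t), ?_⟩
    show (g : G ⧸ K).out * φ t = g
    rw [e, ht]
    simp

/-- Invariance of a local code under the left action. -/
def LInv (m : T → T → T) (L : Submodule F (T → F)) : Prop :=
  ∀ f ∈ L, ∀ s, (fun t => f (m s t)) ∈ L

theorem finrank_Ind [Fintype G] [Fintype T] {φ : T → G} {m : T → T → T} (h : Par φ m)
    {L : Submodule F (T → F)} (hL : LInv m L) :
    finrank F (Ind φ L) * Fintype.card T = Fintype.card G * finrank F L := by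
  obtain ⟨Q, _, s, hs⟩ := h.dec
  let e := Equiv.ofBijective _ hs
  let r : Ind φ L →ₗ[F] (Q → L) :=
    { toFun := fun f q => ⟨fun t => f.1 (s q * φ t), f.2 _⟩
      map_add' := fun _ _ => rfl
      map_smul' := fun _ _ => rfl }
  have hr : Function.Bijective r := by
    constructor
    · intro f f' hf
      ext g
      obtain ⟨⟨q, t⟩, rfl⟩ := hs.2 g
      exact congrFun (congrArg Subtype.val (congrFun hf q)) t
    · intro y
      have key : ∀ q t, e.symm (s q * φ t) = (q, t) := fun q t => e.symm_apply_apply (q, t)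
      refine ⟨⟨fun g => (y (e.symm g).1).1 (e.symm g).2, fun g => ?_⟩, ?_⟩
      · obtain ⟨⟨q, t0⟩, rfl⟩ := hs.2 g
        simp only [mul_assoc, h.mul, key]
        exact hL _ (y q).2 t0
      · funext q
        ext t
        show (y (e.symm (s q * φ t)).1).1 (e.symm (s q * φ t)).2 = _
        rw [key]
  rw [(LinearEquiv.ofBijective r hr).finrank_eq, Module.finrank_pi_fintype, Finset.sum_const,
    Finset.card_univ, smul_eq_mul, ← Fintype.card_congr e, Fintype.card_prod]
  ring

theorem perp_Ind [Fintype G] [Fintype T] {φ : T → G} {m : T → T → T} (h : Par φ m)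
    {L : Submodule F (T → F)} (hL : LInv m L) (hL' : LInv m (perp L)) :
    perp (Ind φ L) = Ind φ (perp L) := by
  apply eq_perp_of_le
  · intro f hf w hw
    obtain ⟨Q, _, s, hs⟩ := h.dec
    show ∑ g, w g * f g = 0
    rw [← (Equiv.ofBijective _ hs).sum_comp, Fintype.sum_prod_type]
    exact Finset.sum_eq_zero fun q _ => hf (s q) _ (hw (s q))
  · have h1 := finrank_Ind h hL
    have h2 := finrank_Ind h hL'
    have h3 := finrank_perp L
    obtain ⟨t, -⟩ := h.one
    have h4 : 0 < Fintype.card T := Fintype.card_pos_iff.2 ⟨t⟩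
    apply Nat.le_of_mul_le_mul_right _ h4
    rw [add_mul, h1, h2, ← mul_add, h3]

/-- One-parameter subgroups. -/
def OneP (x : F → G) : Prop := Function.Injective x ∧ ∀ a b, x a * x b = x (a + b)

theorem OneP.zero {x : F → G} (h : OneP x) : x 0 = 1 := by
  have := h.2 0 0
  rw [add_zero] at this
  exact mul_eq_left.1 this

theorem OneP.par {x : F → G} (h : OneP x) : Par x (· + ·) where
  inj := h.1
  mul := h.2
  one := ⟨0, h.zero⟩
  inv := fun s => ⟨-s, eq_inv_of_mul_eq_one_left (by rw [h.2, neg_add_cancel, h.zero])⟩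

/-- Functions of degree `< k` along the `x`-lines. -/
noncomputable def line (x : F → G) (k : ℕ) : Submodule F (G → F) := Ind x (RS F k)

theorem linv_RS (k : ℕ) : LInv (· + ·) (RS F k) := fun _ hf s => shift_mem_RS hf s

theorem line_mono (x : F → G) {k l : ℕ} (h : k ≤ l) : line x k ≤ line x l :=
  fun _ hf g => RS_mono h (hf g)

variable [Fintype F]

theorem finrank_line [Fintype G] {x : F → G} (h : OneP x) {k : ℕ} (hk : k ≤ Fintype.card F) :
    finrank F (line x k) * Fintype.card F = Fintype.card G * k := by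
  rw [line, finrank_Ind h.par (linv_RS k), finrank_RS hk]

theorem perp_line [Fintype G] {x : F → G} (h : OneP x) {k : ℕ} (hk : k ≤ Fintype.card F) :
    perp (line x k) = line x (Fintype.card F - k) := by
  rw [line, perp_Ind h.par (linv_RS k) (by rw [perp_RS hk]; exact linv_RS _), perp_RS hk, line]

/-- A copy of the Heisenberg group of `F` in `G`. -/
structure HeisMap (F G : Type) [Field F] [Group G] where
  φ : F × F × F → G
  inj : Function.Injective φ
  mul : ∀ a b z a' b' z', φ (a, b, z) * φ (a', b', z') = φ (a + a', b + b', z + z' + a * b')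

namespace HeisMap

variable (h : HeisMap F G)

/-- First root subgroup. -/
def x (τ : F) : G := h.φ (τ, 0, 0)

/-- Second root subgroup. -/
def y (τ : F) : G := h.φ (0, τ, 0)

omit [Fintype F] in
theorem onex : OneP h.x :=
  ⟨fun a b e => by simpa using h.inj e, fun a b => by simp [x, h.mul]⟩

omit [Fintype F] in
theorem oney : OneP h.y :=
  ⟨fun a b e => by simpa using h.inj e, fun a b => by simp [y, h.mul]⟩

omit [Fintype F] in
theorem par : Par h.φ fun s t => (s.1 + t.1, s.2.1 + t.2.1, s.2.2 + t.2.2 + s.1 * t.2.1) where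
  inj := h.inj
  mul := fun ⟨a, b, z⟩ ⟨a', b', z'⟩ => h.mul a b z a' b' z'
  one := ⟨_, h.onex.zero⟩
  inv := fun ⟨a, b, z⟩ => ⟨(-a, -b, -z + a * b), eq_inv_of_mul_eq_one_left (by
    rw [h.mul, ← h.onex.zero, x]
    congr 1
    simp)⟩

end HeisMap

/-- The local code in the link of a vertex. -/
noncomputable def loc (F : Type) [Field F] (k l : ℕ) : Submodule F (F × F × F → F) where
  carrier := {f | (∀ a b z, (fun τ => f (a + τ, b, z)) ∈ RS F k) ∧
    ∀ a b z, (fun τ => f (a, b + τ, z + a * τ)) ∈ RS F l}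
  zero_mem' := ⟨fun _ _ _ => Submodule.zero_mem _, fun _ _ _ => Submodule.zero_mem _⟩
  add_mem' := fun ha hb => ⟨fun a b z => Submodule.add_mem _ (ha.1 a b z) (hb.1 a b z),
    fun a b z => Submodule.add_mem _ (ha.2 a b z) (hb.2 a b z)⟩
  smul_mem' := fun c _ hf => ⟨fun a b z => Submodule.smul_mem _ c (hf.1 a b z),
    fun a b z => Submodule.smul_mem _ c (hf.2 a b z)⟩

theorem finrank_inf_line [Fintype G] (h : HeisMap F G) (k l : ℕ) :
    Fintype.card G * finrank F (loc F k l) ≤
      finrank F (line h.x k ⊓ line h.y l : Submodule F (G → F)) * Fintype.card F ^ 3 := by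
  have h1 := finrank_Ind h.par (L := loc F k l) (by
    rintro f hf ⟨a0, b0, z0⟩
    refine ⟨fun a b z => ?_, fun a b z => ?_⟩
    · simpa only [add_assoc] using hf.1 (a0 + a) (b0 + b) (z0 + z + a0 * b)
    · have := hf.2 (a0 + a) (b0 + b) (z0 + z + a0 * b)
      have e : ∀ τ, z0 + z + a0 * b + (a0 + a) * τ = z0 + (z + a * τ) + a0 * (b + τ) :=
        fun τ => by ring
      simpa only [e, add_assoc b0] using this)
  have h2 : Ind h.φ (loc F k l) ≤ line h.x k ⊓ line h.y l := fun f hf =>
    ⟨fun g => by simpa [HeisMap.x] using (hf g).1 0 0 0,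
      fun g => by simpa [HeisMap.y] using (hf g).2 0 0 0⟩
  rw [← h1]
  simp only [Fintype.card_prod]
  have := Submodule.finrank_mono h2
  calc _ = finrank F (Ind h.φ (loc F k l)) * Fintype.card F ^ 3 := by ring
    _ ≤ _ := Nat.mul_le_mul_right _ this

theorem mono3_indep {s : Finset (ℕ × ℕ × ℕ)}
    (hs : ∀ e ∈ s, e.1 < Fintype.card F ∧ e.2.1 < Fintype.card F ∧ e.2.2 < Fintype.card F)
    (g : ℕ × ℕ × ℕ → F)
    (h : ∀ a b z : F, ∑ e ∈ s, g e * (a ^ e.1 * b ^ e.2.1 * z ^ e.2.2) = 0) : ∀ e ∈ s, g e = 0 := by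
  classical
  set R := Finset.range (Fintype.card F)
  have hR : ∀ e ∈ R, e < Fintype.card F := fun e he => Finset.mem_range.1 he
  let g' : ℕ × ℕ × ℕ → F := fun e => if e ∈ s then g e else 0
  have hsub : s ⊆ R ×ˢ R ×ˢ R := fun e he => by
    simpa [R] using hs e he
  have h1 : ∀ a b z : F, ∑ i ∈ R, (∑ j ∈ R, (∑ k ∈ R, g' (i, j, k) * z ^ k) * b ^ j) * a ^ i = 0 := by
    intro a b z
    rw [← h a b z, ← Finset.sum_subset hsub (f := fun e => g' e * (a ^ e.1 * b ^ e.2.1 * z ^ e.2.2))
      (fun e _ he => by simp [g', he]) |>.symm.trans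
      (Finset.sum_congr rfl fun e he => by simp [g', he])]
    simp only [Finset.sum_product, Finset.sum_mul]
    refine Finset.sum_congr rfl fun i _ => Finset.sum_congr rfl fun j _ =>
      Finset.sum_congr rfl fun k _ => by ring
  rintro ⟨i, j, k⟩ he
  obtain ⟨hi, hj, hk⟩ := hs _ he
  have h2 : ∀ b z : F, ∑ j ∈ R, (∑ k ∈ R, g' (i, j, k) * z ^ k) * b ^ j = 0 := fun b z =>
    monomial_indep hR (fun i => ∑ j ∈ R, (∑ k ∈ R, g' (i, j, k) * z ^ k) * b ^ j)
      (fun a => h1 a b z) i (Finset.mem_range.2 hi)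
  have h3 : ∀ z : F, ∑ k ∈ R, g' (i, j, k) * z ^ k = 0 := fun z =>
    monomial_indep hR (fun j => ∑ k ∈ R, g' (i, j, k) * z ^ k) (fun b => h2 b z) j
      (Finset.mem_range.2 hj)
  have h4 := monomial_indep hR (fun k => g' (i, j, k)) h3 k (Finset.mem_range.2 hk)
  simpa [g', he] using h4

theorem card_le_finrank_of_mono {s : Finset (ℕ × ℕ × ℕ)}
    (hs : ∀ e ∈ s, e.1 < Fintype.card F ∧ e.2.1 < Fintype.card F ∧ e.2.2 < Fintype.card F)
    (L : Submodule F (F × F × F → F)) (κ : F)
    (hL : ∀ e ∈ s, (fun t : F × F × F =>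
      t.1 ^ e.1 * t.2.1 ^ e.2.1 * (t.2.2 - κ * (t.1 * t.2.1)) ^ e.2.2) ∈ L) :
    s.card ≤ finrank F L := by
  classical
  let w : s → L := fun e => ⟨_, hL e.1 e.2⟩
  have hw : LinearIndependent F w := by
    rw [Fintype.linearIndependent_iff]
    intro g hg e
    have := mono3_indep hs (fun e => if he : e ∈ s then g ⟨e, he⟩ else 0) (fun a b z => by
      have h1 := congrFun (congrArg Subtype.val hg) (a, b, z + κ * (a * b))
      simp only [Submodule.coe_sum, Finset.sum_apply, w, Submodule.coe_smul, Pi.smul_apply,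
        smul_eq_mul, add_sub_cancel_right, Submodule.coe_zero, Pi.zero_apply] at h1
      rw [← h1, ← Finset.sum_coe_sort s]
      exact Finset.sum_congr rfl fun e _ => by rw [dif_pos e.2]) e.1 e.2
    simpa [e.2] using this
  simpa using hw.fintype_card_le_finrank

theorem loc_lower_Q {k l : ℕ} (hk : k ≤ Fintype.card F) {S : Finset (ℕ × ℕ)}
    (hS : ∀ p ∈ S, p.1 < Fintype.card F ∧ p.2 < Fintype.card F ∧ Good F l p.1 p.2) :
    k * S.card ≤ finrank F (loc F k l) := by
  have := card_le_finrank_of_mono (F := F) (s := Finset.range k ×ˢ S) (fun e he => by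
    obtain ⟨h1, h2⟩ := Finset.mem_product.1 he
    exact ⟨(Finset.mem_range.1 h1).trans_le hk, (hS _ h2).1, (hS _ h2).2.1⟩) (loc F k l) 0
    (fun e he => by
      obtain ⟨h1, h2⟩ := Finset.mem_product.1 he
      refine ⟨fun a b z => ?_, fun a b z => ?_⟩
      · have := (RS F k).smul_mem (b ^ e.2.1 * z ^ e.2.2)
          (shift_mem_RS (pow_mem_RS (Finset.mem_range.1 h1)) a)
        refine (congrArg (· ∈ RS F k) ?_).mp this
        funext τ
        simp only [Pi.smul_apply, smul_eq_mul]
        ring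
      · have := (RS F l).smul_mem (a ^ e.1) (shift_mem_RS ((hS _ h2).2.2 (z - a * b) a) b)
        refine (congrArg (· ∈ RS F l) ?_).mp this
        funext τ
        simp only [Pi.smul_apply, smul_eq_mul]
        ring)
  simpa using this

theorem loc_lower_P {k l : ℕ} (hl : l ≤ Fintype.card F) {S : Finset (ℕ × ℕ)}
    (hS : ∀ p ∈ S, p.1 < Fintype.card F ∧ p.2 < Fintype.card F ∧ Good F k p.1 p.2) :
    l * S.card ≤ finrank F (loc F k l) := by
  have := card_le_finrank_of_mono (F := F)
    (s := (Finset.range l ×ˢ S).image fun e => (e.2.1, e.1, e.2.2)) (fun e he => by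
    obtain ⟨e, he', rfl⟩ := Finset.mem_image.1 he
    obtain ⟨h1, h2⟩ := Finset.mem_product.1 he'
    exact ⟨(hS _ h2).1, (Finset.mem_range.1 h1).trans_le hl, (hS _ h2).2.1⟩) (loc F k l) 1
    (fun e he => by
      obtain ⟨e, he', rfl⟩ := Finset.mem_image.1 he
      obtain ⟨h1, h2⟩ := Finset.mem_product.1 he'
      refine ⟨fun a b z => ?_, fun a b z => ?_⟩
      · have := (RS F k).smul_mem (b ^ e.1) (shift_mem_RS ((hS _ h2).2.2 z (-b)) a)
        refine (congrArg (· ∈ RS F k) ?_).mp this
        funext τ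
        simp only [Pi.smul_apply, smul_eq_mul]
        ring
      · have := (RS F l).smul_mem (a ^ e.2.1 * (z - a * b) ^ e.2.2)
          (shift_mem_RS (pow_mem_RS (Finset.mem_range.1 h1)) b)
        refine (congrArg (· ∈ RS F l) ?_).mp this
        funext τ
        simp only [Pi.smul_apply, smul_eq_mul]
        ring)
  rw [Finset.card_image_of_injective _ (by
    rintro ⟨a, b, c⟩ ⟨a', b', c'⟩ h
    simp only [Prod.mk.injEq] at h ⊢
    tauto)] at this
  simpa using this

end Pool.Agent.Lib.MP_97bd52_lc
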