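import Mathlib
import Pool.Agent.Lib.MP_97bd52_lc.Ind

namespace Pool.Agent.Lib.MP_97bd52_lc

open Module Matrix

/-- A triangle of Heisenberg groups generating `G`. -/
structure Tri (F G : Type) [Field F] [Group G] where
  h1 : HeisMap F G
  h2 : HeisMap F G
  h3 : HeisMap F G
  e12 : h1.y = h2.x
  e23 : h2.y = h3.x
  e31 : h3.y = h1.x
  gen : ∀ K : Subgroup G, (∀ τ, h1.x τ ∈ K) → (∀ τ, h2.x τ ∈ K) → (∀ τ, h3.x τ ∈ K) → K = ⊤

variable {F G : Type} [Field F] [Group G] (T : Tri F G)

/-- The Tanner code on the coset complex. -/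
noncomputable def Tri.code (k1 k2 k3 : ℕ) : Submodule F (G → F) :=
  line T.h1.x k1 ⊓ line T.h2.x k2 ⊓ line T.h3.x k3

theorem Tri.code_shift {k1 k2 k3 : ℕ} {f : G → F} (hf : f ∈ T.code k1 k2 k3) (g : G) :
    (fun x => f (g * x)) ∈ T.code k1 k2 k3 :=
  ⟨⟨fun g' => by simpa only [mul_assoc] using hf.1.1 (g * g'),
    fun g' => by simpa only [mul_assoc] using hf.1.2 (g * g')⟩,
    fun g' => by simpa only [mul_assoc] using hf.2 (g * g')⟩

theorem line_zero {x : F → G} (h : OneP x) {f : G → F} (hf : f ∈ line x 0) : f = 0 := by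
  funext g
  simpa [h.zero] using congrFun (RS_zero (hf g)) 0

theorem Tri.code_zero (k1 k2 : ℕ) : T.code k1 k2 0 = ⊥ :=
  eq_bot_iff.2 fun _ hf => line_zero T.h3.onex hf.2

theorem mul_mem_line {x : F → G} {k l q μ : ℕ} (h : k + l ≤ q + 1) {f g : G → F}
    (hf : f ∈ line x k) (hg : g ∈ line x (l - μ)) : (fun a => f a * g a) ∈ line x (q - μ) := by
  intro a
  rcases le_or_gt μ l with h1 | h1
  · exact mul_mem_RS (by omega) (hf a) (hg a)
  · have h0 := hg a
    rw [Nat.sub_eq_zero_of_le h1.le] at h0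
    have h2 := RS_zero h0
    have : (fun t => f (a * x t) * g (a * x t)) = 0 := by
      funext t
      rw [show g (a * x t) = 0 from congrFun h2 t, mul_zero]
      rfl
    show (fun t => f (a * x t) * g (a * x t)) ∈ _
    rw [this]
    exact Submodule.zero_mem _

variable [Fintype F] [Fintype G]

theorem Tri.dim_sum [CharP F 2] {j r : ℕ} (hr : r = 2 ^ (j + 1)) (hq : Fintype.card F = 16 * r)
    {y : ℕ} (hy : y ≤ Fintype.card F) :
    Fintype.card G ≤ 16384 * (finrank F (T.code (15 * r) (15 * r) y) +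
      finrank F (T.code r r (Fintype.card F - y))) := by
  have hk : 15 * r ≤ Fintype.card F := by omega
  have hqr : Fintype.card F - 15 * r = r := by omega
  set A := line T.h1.x (15 * r)
  set B := line T.h2.x (15 * r)
  set C := line T.h3.x y
  have pA : perp A = line T.h1.x r := by rw [perp_line T.h1.onex hk, hqr]
  have pB : perp B = line T.h2.x r := by rw [perp_line T.h2.onex hk, hqr]
  have pC : perp C = line T.h3.x (Fintype.card F - y) := perp_line T.h3.onex hy
  have h1 := finrank_three A B C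
  have h2 := finrank_perp (A ⊔ B ⊔ C)
  rw [perp_sup, perp_sup, pA, pB, pC] at h2
  have h3 := Submodule.finrank_sup_add_finrank_inf_eq A B
  have h4 := finrank_perp (A ⊔ B)
  rw [perp_sup, pA, pB] at h4
  have h5 := finrank_line (G := G) T.h3.onex hy
  obtain ⟨S, hS, hS'⟩ := exists_good_set (F := F) hr hq
  have r0 : 0 < r := by rw [hr]; positivity
  have q0 : 0 < Fintype.card F ^ 3 := by have := Fintype.card_pos (α := F); positivity
  have key : ∀ D L : ℕ, y * S.card ≤ L → Fintype.card G * L ≤ D * Fintype.card F ^ 3 →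
      finrank F C ≤ 2 * D := by
    intro D L a b
    apply Nat.le_of_mul_le_mul_right _ q0
    calc finrank F C * Fintype.card F ^ 3
        = (finrank F C * Fintype.card F) * Fintype.card F ^ 2 := by ring
      _ = 2 * (Fintype.card G * (y * (128 * r ^ 2))) := by rw [h5, hq]; ring
      _ ≤ 2 * (Fintype.card G * L) := by gcongr; exact (Nat.mul_le_mul_left _ hS).trans a
      _ ≤ 2 * (D * Fintype.card F ^ 3) := by gcongr
      _ = _ := by ring
  have d23 := key _ _ (loc_lower_P hy hS') (finrank_inf_line T.h2 (15 * r) y)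
  have d31 := key _ _ (loc_lower_Q hy hS') (finrank_inf_line T.h3 y (15 * r))
  rw [T.e23] at d23
  rw [T.e31] at d31
  have d12 := finrank_inf_line T.h1 r r
  rw [T.e12] at d12
  have l12 := loc_lower_Q (F := F) (k := r) (l := r) (by omega)
    (S := Finset.range (2 ^ j) ×ˢ Finset.range (2 ^ j)) (fun p hp => by
      simp only [Finset.mem_product, Finset.mem_range] at hp
      have : r = 2 * 2 ^ j := by rw [hr, pow_succ, mul_comm]
      exact ⟨by omega, by omega, good_of_add_lt (by omega)⟩)
  simp only [Finset.card_product, Finset.card_range] at l12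
  have d12' : Fintype.card G ≤
      16384 * finrank F (line T.h1.x r ⊓ line T.h2.x r : Submodule F (G → F)) := by
    apply Nat.le_of_mul_le_mul_right _ q0
    calc Fintype.card G * Fintype.card F ^ 3
        = 16384 * (Fintype.card G * (r * (2 ^ j * 2 ^ j))) := by rw [hq, hr]; ring
      _ ≤ 16384 * (Fintype.card G * finrank F (loc F r r)) := by gcongr
      _ ≤ 16384 * (finrank F (line T.h1.x r ⊓ line T.h2.x r : Submodule F (G → F)) *
            Fintype.card F ^ 3) := by gcongr
      _ = _ := by ring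
  unfold Tri.code
  change finrank F C ≤ 2 * finrank F (B ⊓ C : Submodule F (G → F)) at d23
  change finrank F C ≤ 2 * finrank F (C ⊓ A : Submodule F (G → F)) at d31
  change Fintype.card G ≤ 16384 * (finrank F (A ⊓ B ⊓ C : Submodule F (G → F)) + _)
  omega

theorem finrank_drop_line {x : F → G} (h : OneP x) {l μ N : ℕ} (hl : l ≤ Fintype.card F)
    (hq : Fintype.card F = N * μ) (A : Submodule F (G → F)) :
    N * finrank F (A ⊓ line x l : Submodule F (G → F)) ≤
      N * finrank F (A ⊓ line x (l - μ) : Submodule F (G → F)) + Fintype.card G := by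
  have h1 := finrank_drop A (line_mono x (Nat.sub_le l μ))
  have h2 := finrank_line (G := G) h hl
  have h3 := finrank_line (G := G) h ((Nat.sub_le l μ).trans hl)
  have q0 := Fintype.card_pos (α := F)
  have m0 : 0 < μ := Nat.pos_of_ne_zero (by rintro rfl; simp [hq] at q0)
  have h4 : N * finrank F (line x l) ≤ N * finrank F (line x (l - μ)) + Fintype.card G := by
    apply Nat.le_of_mul_le_mul_right _ m0
    have : Fintype.card G * l ≤ Fintype.card G * (l - μ) + Fintype.card G * μ := by
      rw [← mul_add]; gcongr; omega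
    calc N * finrank F (line x l) * μ = finrank F (line x l) * Fintype.card F := by rw [hq]; ring
      _ ≤ finrank F (line x (l - μ)) * Fintype.card F + Fintype.card G * μ := by rw [h2, h3]; exact this
      _ = _ := by rw [hq]; ring
  have h5 := Nat.mul_le_mul_left N h1
  rw [mul_add, mul_add] at h5
  omega

theorem Tri.drop {l1 l2 l3 μ N : ℕ} (h1 : l1 ≤ Fintype.card F) (h2 : l2 ≤ Fintype.card F)
    (h3 : l3 ≤ Fintype.card F) (hq : Fintype.card F = N * μ) :
    N * finrank F (T.code l1 l2 l3) ≤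
      N * finrank F (T.code (l1 - μ) (l2 - μ) (l3 - μ)) + 3 * Fintype.card G := by
  have a := finrank_drop_line T.h3.onex h3 hq (line T.h1.x l1 ⊓ line T.h2.x l2)
  have b := finrank_drop_line T.h2.onex h2 hq (line T.h1.x l1 ⊓ line T.h3.x (l3 - μ))
  have c := finrank_drop_line T.h1.onex h1 hq (line T.h2.x (l2 - μ) ⊓ line T.h3.x (l3 - μ))
  rw [inf_right_comm (line T.h1.x l1) (line T.h3.x (l3 - μ)),
    inf_right_comm (line T.h1.x l1) (line T.h3.x (l3 - μ))] at b
  rw [inf_comm _ (line T.h1.x l1), inf_comm _ (line T.h1.x (l1 - μ)), ← inf_assoc, ← inf_assoc] at c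
  unfold Tri.code
  omega

omit [Fintype F] in
theorem exists_common {U V : Submodule F (G → F)}
    (hV : ∀ f ∈ V, ∀ g, (fun x => f (g * x)) ∈ V) :
    ∃ K : Finset G, finrank F U * finrank F V ≤ Fintype.card G * K.card ∧ Onto U K ∧ Onto V K := by
  classical
  obtain ⟨I, hI, hI'⟩ := exists_info_set U
  obtain ⟨J, hJ, hJ'⟩ := exists_info_set V
  have hsum : ∑ g : G, (I.filter fun i => g * i ∈ J).card = I.card * J.card := by
    simp only [Finset.card_filter]
    rw [Finset.sum_comm]
    rw [Finset.sum_congr rfl (g := fun _ => J.card), Finset.sum_const, smul_eq_mul]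
    intro i _
    have := Equiv.sum_comp (Equiv.mulRight i) (fun x => if x ∈ J then (1 : ℕ) else 0)
    exact this.trans (by simp)
  obtain ⟨g, -, hg⟩ := Finset.exists_max_image Finset.univ
    (fun g : G => (I.filter fun i => g * i ∈ J).card) Finset.univ_nonempty
  refine ⟨I.filter fun i => g * i ∈ J, ?_, hI'.mono (Finset.filter_subset _ _), fun ρ => ?_⟩
  · calc finrank F U * finrank F V ≤ I.card * J.card := Nat.mul_le_mul hI hJ
      _ = ∑ g : G, (I.filter fun i => g * i ∈ J).card := hsum.symm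
      _ ≤ ∑ _g' : G, (I.filter fun i => g * i ∈ J).card := Finset.sum_le_sum hg
      _ = _ := by simp
  · obtain ⟨w, hw, hw'⟩ := hJ' fun x => ρ (g⁻¹ * x)
    refine ⟨_, hV w hw g, fun i hi => ?_⟩
    simpa using hw' _ (Finset.mem_filter.1 hi).2

theorem Tri.exists_codes [CharP F 2] {j μ : ℕ} (hμ : μ = 2 ^ j) (hq : Fintype.card F = 2 ^ 18 * μ) :
    ∃ k1 k2 k3 l1 l2 l3 : ℕ, k1 ≤ Fintype.card F ∧ k2 ≤ Fintype.card F ∧ k3 ≤ Fintype.card F ∧
      l1 ≤ Fintype.card F ∧ l2 ≤ Fintype.card F ∧ l3 ≤ Fintype.card F ∧ ∃ K : Finset G,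
      Fintype.card G ≤ 2 ^ 31 * K.card ∧ Onto (T.code k1 k2 k3) K ∧ Onto (T.code l1 l2 l3) K ∧
      ∀ u ∈ T.code k1 k2 k3, ∀ v ∈ T.code l1 l2 l3, (fun a => u a * v a) ∈
        T.code (Fintype.card F - μ) (Fintype.card F - μ) (Fintype.card F - μ) := by
  classical
  obtain ⟨r, hr⟩ : ∃ r, r = 2 ^ (j + 13 + 1) := ⟨_, rfl⟩
  have hq' : Fintype.card F = 16 * r := by rw [hq, hr, hμ]; ring
  have n0 := Fintype.card_pos (α := G)
  have ex : ∃ y, y ≤ Fintype.card F ∧
      Fintype.card G ≤ 32768 * finrank F (T.code (15 * r) (15 * r) y) := by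
    refine ⟨_, le_rfl, ?_⟩
    have := T.dim_sum hr hq' le_rfl
    rw [Nat.sub_self, T.code_zero, finrank_bot] at this
    omega
  obtain ⟨y, hy⟩ : ∃ y, Nat.find ex = y + 1 := by
    apply Nat.exists_eq_succ_of_ne_zero
    intro h0
    have := (Nat.find_spec ex).2
    rw [h0, T.code_zero, finrank_bot] at this
    omega
  obtain ⟨a1, a2⟩ := hy ▸ Nat.find_spec ex
  have a3 := Nat.find_min ex (show y < Nat.find ex by omega)
  have a4 := T.dim_sum hr hq' (show y ≤ Fintype.card F by omega)
  have a5 := T.drop (l1 := r) (l2 := r) (l3 := Fintype.card F - y) (by omega) (by omega)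
    (by omega) hq
  have a6 : Fintype.card G ≤
      65536 * finrank F (T.code (r - μ) (r - μ) (Fintype.card F - y - μ)) := by omega
  obtain ⟨K, hK, hU, hV⟩ := exists_common (U := T.code (15 * r) (15 * r) (y + 1))
    (V := T.code (r - μ) (r - μ) (Fintype.card F - y - μ)) fun f hf g => T.code_shift hf g
  refine ⟨15 * r, 15 * r, y + 1, r - μ, r - μ, Fintype.card F - y - μ, by omega, by omega, a1,
    by omega, by omega, by omega, K, ?_, hU, hV, fun u hu v hv => ?_⟩
  · apply Nat.le_of_mul_le_mul_left _ n0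
    calc Fintype.card G * Fintype.card G ≤ _ := Nat.mul_le_mul a2 a6
      _ = 2 ^ 31 * (finrank F (T.code (15 * r) (15 * r) (y + 1)) *
          finrank F (T.code (r - μ) (r - μ) (Fintype.card F - y - μ))) := by ring
      _ ≤ 2 ^ 31 * (Fintype.card G * K.card) := by gcongr
      _ = _ := by ring
  · exact ⟨⟨mul_mem_line (by omega) hu.1.1 hv.1.1, mul_mem_line (by omega) hu.1.2 hv.1.2⟩,
      mul_mem_line (by omega) hu.2 hv.2⟩

end Pool.Agent.Lib.MP_97bd52_lc
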