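import Mathlib

namespace Pool.Agent.Lib.MP_97bd52_lc

/-- Deterministic adaptive query algorithm (decision tree) for `m × n` matrices over `ZMod p`:
output a real number, or query a row, or query a column and continue depending on the answer. -/
inductive Alg (p m n : ℕ) : Type where
  | out : ℝ → Alg p m n
  | row : Fin m → ((Fin n → ZMod p) → Alg p m n) → Alg p m n
  | col : Fin n → ((Fin m → ZMod p) → Alg p m n) → Alg p m n

/-- The output of the algorithm on input `A`. -/
def Alg.output {p m n : ℕ} (A : Matrix (Fin m) (Fin n) (ZMod p)) : Alg p m n → ℝ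
  | .out r => r
  | .row i k => Alg.output A (k fun j => A i j)
  | .col j k => Alg.output A (k fun i => A i j)

/-- The number of queries the algorithm makes on input `A`. -/
def Alg.queries {p m n : ℕ} (A : Matrix (Fin m) (Fin n) (ZMod p)) : Alg p m n → ℕ
  | .out _ => 0
  | .row i k => Alg.queries A (k fun j => A i j) + 1
  | .col j k => Alg.queries A (k fun i => A i j) + 1

/-- Every row and every column has at most `d` nonzero entries. -/
def Sparse {p m n : ℕ} (d : ℕ) (A : Matrix (Fin m) (Fin n) (ZMod p)) : Prop :=
  (∀ i, Set.ncard {j | A i j ≠ 0} ≤ d) ∧ (∀ j, Set.ncard {i | A i j ≠ 0} ≤ d)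

end Pool.Agent.Lib.MP_97bd52_lc
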