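import Mathlib
import Pool.Agent.Lib.MP_97bd52_lc.Angle
import Pool.Agent.Lib.MP_97bd52_lc.Codes

namespace Pool.Agent.Lib.MP_97bd52_lc

open scoped RealInnerProductSpace

variable {F G T : Type} [Field F] [Group G] [Fintype G]

/-- Real functions invariant under right multiplication by the image of `φ`. -/
def invS (φ : T → G) : Submodule ℝ (EuclideanSpace ℝ G) where
  carrier := {f | ∀ g t, f (g * φ t) = f g}
  zero_mem' := fun _ _ => rfl
  add_mem' := fun ha hb g t => by simp [ha g t, hb g t]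
  smul_mem' := fun c f hf g t => by simp [hf g t]

omit [Group G] in
theorem inner_eq (u w : EuclideanSpace ℝ G) : ⟪u, w⟫ = ∑ g, u g * w g := by
  simp [PiLp.inner_apply, mul_comm]

omit [Group G] in
theorem norm_sq_eq (u : EuclideanSpace ℝ G) : ‖u‖ ^ 2 = ∑ g, u g ^ 2 := by
  rw [← real_inner_self_eq_norm_sq, inner_eq]
  simp [sq]

theorem sum_shift (f : G → ℝ) (a : G) : ∑ g, f (g * a) = ∑ g, f g :=
  Equiv.sum_comp (Equiv.mulRight a) f

theorem sum_local [Fintype T] (φ : T → G) (f : G → ℝ) :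
    ∑ g, ∑ t, f (g * φ t) = Fintype.card T * ∑ g, f g := by
  rw [Finset.sum_comm]
  simp [sum_shift f]

theorem proj_apply [Fintype T] {φ : T → G} {m : T → T → T} (h : Par φ m)
    (f : EuclideanSpace ℝ G) (g : G) :
    (invS φ).starProjection f g = (∑ t, f (g * φ t)) / Fintype.card T := by
  obtain ⟨t0, -⟩ := h.one
  have T0 : (0 : ℝ) < Fintype.card T := by exact_mod_cast Fintype.card_pos_iff.2 ⟨t0⟩
  have : (invS φ).starProjection f =
      WithLp.toLp 2 fun g => (∑ t, f (g * φ t)) / Fintype.card T := by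
    apply Submodule.eq_starProjection_of_mem_of_inner_eq_zero
    · intro g s
      have hb : Function.Bijective (m s) :=
        Finite.injective_iff_bijective.1 fun a b e =>
          h.inj (mul_left_cancel (a := φ s) (by rw [h.mul, h.mul, e]))
      simp only [mul_assoc, h.mul]
      rw [(Equiv.ofBijective _ hb).sum_comp (fun t => f (g * φ t)) |>.symm]
      rfl
    · intro w hw
      rw [inner_sub_left, inner_eq, inner_eq, sub_eq_zero]
      have := sum_local φ fun g => f g * w g
      simp only [div_mul_eq_mul_div, ← Finset.sum_div, Finset.sum_mul]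
      rw [eq_div_iff T0.ne', mul_comm, ← this]
      exact Finset.sum_congr rfl fun g _ => Finset.sum_congr rfl fun t _ => by rw [hw g t]
  rw [this]

omit [Fintype G] in
theorem par_id : Par (id : G → G) (· * ·) where
  inj := Function.injective_id
  mul := fun _ _ => rfl
  one := ⟨1, rfl⟩
  inv := fun s => ⟨s⁻¹, rfl⟩

variable [Fintype F]

theorem local_bound (ω : F → F → ℝ) (h0 : ∑ a, ∑ c, ω a c = 0) :
    ∑ b, ∑ z, (∑ a, ω a (z - a * b)) ^ 2 ≤ Fintype.card F * ∑ a, ∑ c, ω a c ^ 2 := by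
  classical
  have key : ∀ a a', ∑ b, ∑ z, ω a (z - a * b) * ω a' (z - a' * b) =
      (∑ c, ω a c) * (∑ c, ω a' c) +
      if a = a' then Fintype.card F * ∑ c, ω a c ^ 2 - (∑ c, ω a c) ^ 2 else 0 := by
    intro a a'
    have e1 : ∀ b, ∑ z, ω a (z - a * b) * ω a' (z - a' * b) =
        ∑ c, ω a c * ω a' (c + (a - a') * b) := by
      intro b
      rw [← Equiv.sum_comp (Equiv.addRight (a * b))]
      refine Finset.sum_congr rfl fun c _ => ?_
      simp only [Equiv.coe_addRight, add_sub_cancel_right]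
      congr 2
      ring
    simp only [e1]
    split_ifs with h
    · subst h
      simp [sq]
    · rw [Finset.sum_comm, add_zero, Finset.sum_mul]
      refine Finset.sum_congr rfl fun c _ => ?_
      rw [← Finset.mul_sum]
      congr 1
      exact Equiv.sum_comp ((Equiv.mulLeft₀ (a - a') (sub_ne_zero.2 h)).trans (Equiv.addLeft c))
        (ω a')
  have e : ∑ b, ∑ z, (∑ a, ω a (z - a * b)) ^ 2 =
      ∑ a, ∑ a', ∑ b, ∑ z, ω a (z - a * b) * ω a' (z - a' * b) := by
    simp only [sq, Finset.sum_mul_sum]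
    calc _ = ∑ b, ∑ a, ∑ a', ∑ z, ω a (z - a * b) * ω a' (z - a' * b) := by
          refine Finset.sum_congr rfl fun b _ => ?_
          rw [Finset.sum_comm]
          exact Finset.sum_congr rfl fun a _ => Finset.sum_comm
      _ = _ := by
          rw [Finset.sum_comm]
          exact Finset.sum_congr rfl fun a _ => Finset.sum_comm
  rw [e]
  simp only [key, Finset.sum_add_distrib, Finset.sum_ite_eq, Finset.mem_univ, if_true,
    ← Finset.mul_sum, h0, mul_zero, zero_add, Finset.sum_sub_distrib]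
  have : 0 ≤ ∑ a, (∑ c, ω a c) ^ 2 := Finset.sum_nonneg fun _ _ => sq_nonneg _
  linarith

theorem HeisMap.ang (h : HeisMap F G) {ε : ℝ} (hε : 0 ≤ ε) (hq : 1 ≤ ε ^ 2 * Fintype.card F) :
    Ang (invS h.x) (invS h.y) (invS h.φ) ε := by
  intro u hu w hw _ hw'
  have q0 : (0 : ℝ) < Fintype.card F := by exact_mod_cast Fintype.card_pos (α := F)
  have h1 : ⟪u, w⟫ = ⟪u, (invS h.x).starProjection w⟫ := by
    rw [← Submodule.inner_starProjection_left_eq_right, Submodule.starProjection_eq_self_iff.2 hu]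
  have h2 : ∀ g, ∑ t, w (g * h.φ t) = 0 := by
    intro g
    have := proj_apply h.par w g
    rw [(Submodule.starProjection_apply_eq_zero_iff _).2 hw'] at this
    have T0 : (Fintype.card (F × F × F) : ℝ) ≠ 0 := by
      exact_mod_cast (Fintype.card_pos (α := F × F × F)).ne'
    exact (div_eq_zero_iff.1 this.symm).resolve_right T0
  have h3 : ∀ g, Fintype.card F * ∑ t, ((invS h.x).starProjection w (g * h.φ t)) ^ 2 ≤
      ∑ t, w (g * h.φ t) ^ 2 := by
    intro g
    let ω : F → F → ℝ := fun a c => w (g * h.φ (a, 0, c))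
    have e1 : ∀ a b z, w (g * h.φ (a, b, z)) = ω a (z - a * b) := by
      intro a b z
      have := hw (g * h.φ (a, 0, z - a * b)) b
      rw [mul_assoc, HeisMap.y, h.mul] at this
      simpa using this
    have e2 : ∀ (k : ℝ → ℝ), ∑ t, k (w (g * h.φ t)) = Fintype.card F * ∑ a, ∑ c, k (ω a c) := by
      intro k
      simp only [Fintype.sum_prod_type, e1]
      rw [Finset.mul_sum]
      refine Finset.sum_congr rfl fun a _ => ?_
      rw [Finset.sum_congr rfl (g := fun _ => ∑ c, k (ω a c))]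
      · simp
      · intro b _
        exact Equiv.sum_comp (Equiv.subRight (a * b)) fun c => k (ω a c)
    have e3 : ∑ a, ∑ c, ω a c = 0 := by
      have := e2 id
      simp only [id] at this
      rw [h2 g] at this
      exact (mul_eq_zero.1 this.symm).resolve_left q0.ne'
    have e4 : ∀ a b z, (invS h.x).starProjection w (g * h.φ (a, b, z)) =
        (∑ a', ω a' (z - a' * b)) / Fintype.card F := by
      intro a b z
      rw [proj_apply h.onex.par]
      congr 1
      rw [← Equiv.sum_comp (Equiv.addLeft a) fun a' => ω a' (z - a' * b)]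
      refine Finset.sum_congr rfl fun τ _ => ?_
      rw [mul_assoc, HeisMap.x, h.mul]
      simp [e1]
    have e5 := local_bound ω e3
    rw [e2 (· ^ 2)]
    simp only [Fintype.sum_prod_type, e4, div_pow, ← Finset.sum_div, Finset.sum_const,
      Finset.card_univ, nsmul_eq_mul]
    calc _ = ∑ b, ∑ z, (∑ a, ω a (z - a * b)) ^ 2 := by field_simp
      _ ≤ _ := e5
  have h4 : Fintype.card F * ‖(invS h.x).starProjection w‖ ^ 2 ≤ ‖w‖ ^ 2 := by
    have := Finset.sum_le_sum fun g (_ : g ∈ Finset.univ) => h3 g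
    rw [← Finset.mul_sum, sum_local h.φ (fun g => (invS h.x).starProjection w g ^ 2),
      sum_local h.φ (fun g => w g ^ 2), ← norm_sq_eq, ← norm_sq_eq] at this
    have T0 : (0 : ℝ) < Fintype.card (F × F × F) := by
      exact_mod_cast (Fintype.card_pos (α := F × F × F))
    nlinarith
  have h5 : ‖(invS h.x).starProjection w‖ ≤ ε * ‖w‖ := by
    apply le_of_sq_le_sq _ (by positivity)
    rw [mul_pow]
    nlinarith [mul_le_mul_of_nonneg_left h4 (sq_nonneg ε),
      mul_le_mul_of_nonneg_right hq (sq_nonneg ‖(invS h.x).starProjection w‖)]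
  calc ⟪u, w⟫ ≤ ‖u‖ * ‖(invS h.x).starProjection w‖ := h1 ▸ real_inner_le_norm _ _
    _ ≤ ‖u‖ * (ε * ‖w‖) := by gcongr
    _ = _ := by ring

omit [Fintype F] [Fintype G] in
theorem Tri.const (T : Tri F G) {f : EuclideanSpace ℝ G} (h1 : f ∈ invS T.h1.x)
    (h2 : f ∈ invS T.h2.x) (h3 : f ∈ invS T.h3.x) : f ∈ invS (id : G → G) := by
  let K : Subgroup G :=
    { carrier := {k | ∀ g, f (g * k) = f g}
      mul_mem' := fun ha hb g => by rw [← mul_assoc, hb, ha]
      one_mem' := fun g => by rw [mul_one]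
      inv_mem' := fun {k} hk g => by rw [← hk (g * k⁻¹), inv_mul_cancel_right] }
  have := T.gen K (fun τ g => h1 g τ) (fun τ g => h2 g τ) (fun τ g => h3 g τ)
  intro g t
  have ht : t ∈ K := this ▸ Subgroup.mem_top t
  exact ht g

theorem Tri.walk (T : Tri F G) {ε : ℝ} (hε : 0 ≤ ε) (hε1 : ε ≤ 1)
    (hq : 1 ≤ ε ^ 2 * Fintype.card F) (s : EuclideanSpace ℝ G) :
    ⟪s, (invS T.h1.x).starProjection ((invS T.h2.x).starProjection
      ((invS T.h3.x).starProjection s))⟫ ≤
      (∑ g, s g) ^ 2 / Fintype.card G + 5 * ε * ∑ g, s g ^ 2 := by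
  have lx : ∀ h : HeisMap F G, invS h.φ ≤ invS h.x := fun h f hf g τ => hf g _
  have ly : ∀ h : HeisMap F G, invS h.φ ≤ invS h.y := fun h f hf g τ => hf g _
  have lc : ∀ h : HeisMap F G, invS (id : G → G) ≤ invS h.φ := fun h f hf g τ => hf g _
  have a1 := lx T.h1
  have a2 := T.e12 ▸ ly T.h1
  have b2 := lx T.h2
  have b3 := T.e23 ▸ ly T.h2
  have c3 := lx T.h3
  have c1 := T.e31 ▸ ly T.h3
  have h12 := T.e12 ▸ T.h1.ang hε hq
  have h23 := T.e23 ▸ T.h2.ang hε hq
  have h31 := T.e31 ▸ T.h3.ang hε hq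
  have h := trickle hε hε1 a1 a2 b2 b3 c3 c1 (lc _) (lc _) (lc _)
    (fun f hf => T.const (a1 hf.1) (a2 hf.1) (b3 hf.2))
    (fun f hf => T.const (c1 hf.2) (b2 hf.1) (b3 hf.1))
    (fun f hf => T.const (c1 hf.1) (a2 hf.2) (c3 hf.1)) h12 h23 h31
  have h' := three_step hε hε1 a1 a2 b2 b3 (lc _) (lc _) h12 h23 h s
  rw [norm_sq_eq, norm_sq_eq] at h'
  refine h'.trans (le_of_eq ?_)
  congr 1
  have n0 : (0 : ℝ) < Fintype.card G := by exact_mod_cast Fintype.card_pos (α := G)
  have : ∀ g, (invS (id : G → G)).starProjection s g = (∑ g, s g) / Fintype.card G := by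
    intro g
    rw [proj_apply par_id]
    congr 1
    exact Equiv.sum_comp (Equiv.mulLeft g) fun t => s t
  simp only [this, Finset.sum_const, Finset.card_univ, nsmul_eq_mul]
  field_simp

theorem Tri.distance [DecidableEq F] (T : Tri F G) {ε δ : ℝ} (hε : 0 ≤ ε) (hε1 : ε ≤ 1)
    (hq : 1 ≤ ε ^ 2 * Fintype.card F) {μ : ℕ} (hδ : 0 ≤ δ) (hμ : δ * Fintype.card F ≤ μ)
    {f : G → F} (hf : f ∈ T.code (Fintype.card F - μ) (Fintype.card F - μ) (Fintype.card F - μ))
    (h0 : f ≠ 0) :
    (δ ^ 3 - 5 * ε) * Fintype.card G ≤ (Finset.univ.filter fun g => f g ≠ 0).card := by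
  have q0 : (0 : ℝ) < Fintype.card F := by exact_mod_cast Fintype.card_pos (α := F)
  have n0 : (0 : ℝ) < Fintype.card G := by exact_mod_cast Fintype.card_pos (α := G)
  let s : EuclideanSpace ℝ G := WithLp.toLp 2 fun g => if f g ≠ 0 then 1 else 0
  have hs : ∀ g, s g = if f g ≠ 0 then 1 else 0 := fun _ => rfl
  have step : ∀ x : F → G, OneP x → f ∈ line x (Fintype.card F - μ) →
      ∀ (v : EuclideanSpace ℝ G) (c : ℝ), 0 ≤ c → (∀ g, c * s g ≤ v g) →
      ∀ g, δ * c * s g ≤ (invS x).starProjection v g := by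
    intro x hx hfx v c hc hv g
    rw [proj_apply hx.par, le_div_iff₀ q0]
    have h1 : ∑ t, c * s (g * x t) ≤ ∑ t, v (g * x t) := Finset.sum_le_sum fun t _ => hv _
    refine le_trans ?_ h1
    rw [← Finset.mul_sum]
    have h2 : ∑ t, s (g * x t) = (Finset.univ.filter fun t => f (g * x t) ≠ 0).card := by
      simp only [hs, Finset.card_filter]
      push_cast
      rfl
    rw [h2, hs]
    split_ifs with hg
    · have h3 := weight_RS (hfx g) (fun e => hg (by simpa [hx.zero] using congrFun e 0))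
      have h4 : (μ : ℝ) ≤ (Finset.univ.filter fun t => f (g * x t) ≠ 0).card := by
        exact_mod_cast h3
      nlinarith [mul_le_mul_of_nonneg_left (hμ.trans h4) hc]
    · simp only [mul_zero, zero_mul]
      positivity
  have s3 := step _ T.h3.onex hf.2 s 1 zero_le_one fun g => by rw [one_mul]
  have s2 := step _ T.h2.onex hf.1.2 _ _ (by positivity) s3
  have s1 := step _ T.h1.onex hf.1.1 _ _ (by positivity) s2
  have w := T.walk hε hε1 hq s
  set N : ℝ := ((Finset.univ.filter fun g => f g ≠ 0).card : ℝ) with hN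
  have e1 : ∑ g, s g = N := by
    simp only [hs, hN, Finset.card_filter]
    push_cast
    rfl
  have e2 : ∀ g, s g ^ 2 = s g := fun g => by rw [hs]; split_ifs <;> simp
  have N0 : 0 < N := by
    obtain ⟨g, hg⟩ := Function.ne_iff.1 h0
    rw [hN]
    exact_mod_cast Finset.card_pos.2 ⟨g, by simpa using hg⟩
  have low : δ ^ 3 * N ≤ ⟪s, (invS T.h1.x).starProjection ((invS T.h2.x).starProjection
      ((invS T.h3.x).starProjection s))⟫ := by
    rw [inner_eq, ← e1, Finset.mul_sum]
    refine Finset.sum_le_sum fun g _ => ?_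
    have h1 : 0 ≤ s g := by rw [hs]; split_ifs <;> simp
    calc δ ^ 3 * s g = s g * (δ * (δ * (δ * 1)) * s g) := by
          rw [← e2 g]; nth_rewrite 2 [e2 g]; nth_rewrite 2 [e2 g]; ring
      _ ≤ _ := mul_le_mul_of_nonneg_left (s1 g) h1
  simp only [e2, e1] at w
  have h5 : (δ ^ 3 - 5 * ε) * N ≤ N ^ 2 / Fintype.card G := by linarith
  rw [le_div_iff₀ n0] at h5
  have : ((δ ^ 3 - 5 * ε) * Fintype.card G) * N ≤ N * N := by nlinarith
  exact le_of_mul_le_mul_right this N0

end Pool.Agent.Lib.MP_97bd52_lc
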