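import Mathlib
import Pool.Agent.Lib.MP_97bd52_lc.Codes

namespace Pool.Agent.Lib.MP_97bd52_lc

open Matrix Polynomial

section Abstract

variable {F Γ : Type} [Field F] [Group Γ]

theorem HeisMap.mem (h : HeisMap F Γ) (K : Subgroup Γ) (hx : ∀ τ, h.x τ ∈ K)
    (hy : ∀ τ, h.y τ ∈ K) (t : F × F × F) : h.φ t ∈ K := by
  obtain ⟨a, b, z⟩ := t
  have h1 : h.φ (0, 0, z) ∈ K := by
    have e : h.x z * h.y 1 = h.φ (0, 0, z) * (h.y 1 * h.x z) := by
      simp [HeisMap.x, HeisMap.y, h.mul]
    have := K.mul_mem (hx z) (hy 1)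
    rwa [e, K.mul_mem_cancel_right (K.mul_mem (hy 1) (hx z))] at this
  have e : h.φ (a, b, z) = h.φ (0, 0, z) * (h.y b * h.x a) := by
    simp [HeisMap.x, HeisMap.y, h.mul]
  rw [e]
  exact K.mul_mem h1 (K.mul_mem (hy b) (hx a))

/-- Restriction of the target group. -/
def HeisMap.res (h : HeisMap F Γ) (K : Subgroup Γ) (hx : ∀ τ, h.x τ ∈ K)
    (hy : ∀ τ, h.y τ ∈ K) : HeisMap F K where
  φ t := ⟨h.φ t, h.mem K hx hy t⟩
  inj := fun _ _ e => h.inj (congrArg Subtype.val e)
  mul := fun a b z a' b' z' => Subtype.ext (h.mul a b z a' b' z')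

theorem exists_tri (h1 h2 h3 : HeisMap F Γ) (e12 : h1.y = h2.x) (e23 : h2.y = h3.x)
    (e31 : h3.y = h1.x) :
    Nonempty (Tri F (Subgroup.closure (Set.range h1.x ∪ Set.range h2.x ∪ Set.range h3.x))) := by
  set K := Subgroup.closure (Set.range h1.x ∪ Set.range h2.x ∪ Set.range h3.x)
  have m1 : ∀ τ, h1.x τ ∈ K := fun τ => Subgroup.subset_closure (Or.inl (Or.inl ⟨τ, rfl⟩))
  have m2 : ∀ τ, h2.x τ ∈ K := fun τ => Subgroup.subset_closure (Or.inl (Or.inr ⟨τ, rfl⟩))
  have m3 : ∀ τ, h3.x τ ∈ K := fun τ => Subgroup.subset_closure (Or.inr ⟨τ, rfl⟩)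
  refine ⟨⟨h1.res K m1 (e12 ▸ m2), h2.res K m2 (e23 ▸ m3), h3.res K m3 (e31 ▸ m1),
    funext fun τ => Subtype.ext (congrFun e12 τ), funext fun τ => Subtype.ext (congrFun e23 τ),
    funext fun τ => Subtype.ext (congrFun e31 τ), fun K' a1 a2 a3 => ?_⟩⟩
  have : K ≤ K'.map K.subtype := by
    rw [Subgroup.closure_le]
    rintro _ ((⟨τ, rfl⟩ | ⟨τ, rfl⟩) | ⟨τ, rfl⟩)
    · exact ⟨_, a1 τ, rfl⟩
    · exact ⟨_, a2 τ, rfl⟩
    · exact ⟨_, a3 τ, rfl⟩
  rw [eq_top_iff]
  rintro ⟨g, hg⟩ -
  obtain ⟨g', hg', e⟩ := this hg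
  obtain rfl : g' = ⟨g, hg⟩ := Subtype.ext e
  exact hg'

end Abstract

section Mat

variable {R : Type} [CommRing R]

/-- Elementary matrices. -/
def el {i j : Fin 3} (h : i ≠ j) (c : R) : SpecialLinearGroup (Fin 3) R :=
  ⟨transvection i j c, det_transvection_of_ne i j h c⟩

/-- Underlying matrix. -/
def cm : SpecialLinearGroup (Fin 3) R →* Matrix (Fin 3) (Fin 3) R := SpecialLinearGroup.coeMonoidHom

theorem cm_inj : Function.Injective (cm (R := R)) := SpecialLinearGroup.coeMonoidHom_injective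

theorem el_coe {i j : Fin 3} (h : i ≠ j) (c : R) : cm (el h c) = 1 + single i j c := rfl

theorem el_zero {i j : Fin 3} (h : i ≠ j) : el h (0 : R) = 1 :=
  cm_inj (by simp [el_coe])

theorem el_prod {i j k : Fin 3} (hij : i ≠ j) (hjk : j ≠ k) (hik : i ≠ k) (a b z : R) :
    cm (el hik z * (el hjk b * el hij a)) = 1 + single i j a + single j k b + single i k z := by
  simp only [map_mul, el_coe, mul_add, add_mul, one_mul, mul_one,
    single_mul_single_of_ne _ _ _ _ hik.symm, single_mul_single_of_ne _ _ _ _ hjk.symm, add_zero]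
  abel

theorem el_comm {i j k : Fin 3} (hij : i ≠ j) (hjk : j ≠ k) (hik : i ≠ k) (a b : R) :
    el hij a * el hjk b = el hik (a * b) * (el hjk b * el hij a) := by
  apply cm_inj
  rw [el_prod]
  simp only [map_mul, el_coe, mul_add, add_mul, one_mul, mul_one,
    single_mul_single_same]
  abel

theorem el_mem {K : Subgroup (SpecialLinearGroup (Fin 3) R)} {i j k : Fin 3} {hij : i ≠ j}
    {hjk : j ≠ k} (hik : i ≠ k) {a b : R} (ha : el hij a ∈ K) (hb : el hjk b ∈ K) :
    el hik (a * b) ∈ K := by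
  have := K.mul_mem ha hb
  rwa [el_comm hij hjk hik, K.mul_mem_cancel_right (K.mul_mem hb ha)] at this

variable {F : Type} [Field F]

/-- Heisenberg subgroup of `SL_3(R)`. -/
def heis (ι : F →+* R) {i j k : Fin 3} (hij : i ≠ j) (hjk : j ≠ k) (hik : i ≠ k) (l m : R)
    (h : ∀ a : F, ι a * (l * m) = 0 → a = 0) : HeisMap F (SpecialLinearGroup (Fin 3) R) where
  φ t := el hik (ι t.2.2 * (l * m)) * (el hjk (ι t.2.1 * m) * el hij (ι t.1 * l))
  inj := by
    rintro ⟨a, b, z⟩ ⟨a', b', z'⟩ e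
    have e' := congrArg cm e
    rw [el_prod, el_prod] at e'
    have e1 := congrFun (congrFun e' i) j
    have e2 := congrFun (congrFun e' j) k
    have e3 := congrFun (congrFun e' i) k
    simp only [Matrix.add_apply, single_apply, hij, hjk, hij.symm, hjk.symm,
      and_self, and_true, and_false, if_true, if_false, add_zero, add_right_inj] at e1 e2 e3
    have f1 := h (a - a') (by rw [map_sub, ← mul_assoc, sub_mul, e1, sub_self, zero_mul])
    have f2 := h (b - b') (by rw [map_sub, mul_comm l, ← mul_assoc, sub_mul, e2, sub_self, zero_mul])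
    have f3 := h (z - z') (by rw [map_sub, sub_mul, e3, sub_self])
    rw [sub_eq_zero.1 f1, sub_eq_zero.1 f2, sub_eq_zero.1 f3]
  mul a b z a' b' z' := by
    apply cm_inj
    rw [map_mul, el_prod, el_prod, el_prod]
    simp only [mul_add, add_mul, one_mul, mul_one, single_mul_single_same,
      single_mul_single_of_ne _ _ _ _ hik.symm, single_mul_single_of_ne _ _ _ _ hjk.symm,
      single_mul_single_of_ne _ _ _ _ hij.symm, add_zero, map_add, map_mul, single_add]
    rw [show ι a * ι b' * (l * m) = ι a * l * (ι b' * m) by ring]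
    abel

theorem heis_x (ι : F →+* R) {i j k : Fin 3} (hij : i ≠ j) (hjk : j ≠ k) (hik : i ≠ k) (l m : R)
    (h : ∀ a : F, ι a * (l * m) = 0 → a = 0) :
    (heis ι hij hjk hik l m h).x = fun τ => el hij (ι τ * l) := by
  funext τ
  simp [HeisMap.x, heis, el_zero]

theorem heis_y (ι : F →+* R) {i j k : Fin 3} (hij : i ≠ j) (hjk : j ≠ k) (hik : i ≠ k) (l m : R)
    (h : ∀ a : F, ι a * (l * m) = 0 → a = 0) :
    (heis ι hij hjk hik l m h).y = fun τ => el hjk (ι τ * m) := by
  funext τ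
  simp [HeisMap.y, heis, el_zero]

theorem n01 : (0 : Fin 3) ≠ 1 := by decide
theorem n12 : (1 : Fin 3) ≠ 2 := by decide
theorem n20 : (2 : Fin 3) ≠ 0 := by decide

/-- The group generated by the three root subgroups. -/
def grp (ι : F →+* R) (t : R) : Subgroup (SpecialLinearGroup (Fin 3) R) :=
  Subgroup.closure (Set.range (fun τ => el n01 (ι τ * 1)) ∪ Set.range (fun τ => el n12 (ι τ * 1)) ∪
    Set.range (fun τ => el n20 (ι τ * t)))

theorem grp_tri (ι : F →+* R) (t : R) (h : ∀ a : F, ι a * t = 0 → a = 0) :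
    Nonempty (Tri F (grp ι t)) := by
  have := exists_tri
    (heis ι n01 n12 n20.symm 1 1 fun a e => h a (by rw [mul_one, mul_one] at e; rw [e, zero_mul]))
    (heis ι n12 n20 n01.symm 1 t fun a e => h a (by rwa [one_mul] at e))
    (heis ι n20 n01 n12.symm t 1 fun a e => h a (by rwa [mul_one] at e))
    (by rw [heis_x, heis_y]) (by rw [heis_x, heis_y]) (by rw [heis_x, heis_y])
  rwa [heis_x, heis_x, heis_x] at this

theorem pow_mem_grp (ι : F →+* R) (t : R) (k : ℕ) :
    el n01 (t ^ k) ∈ grp ι t ∧ el n12 (t ^ k) ∈ grp ι t ∧ el n20 (t ^ (k + 1)) ∈ grp ι t := by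
  have a1 : el n01 (1 : R) ∈ grp ι t :=
    Subgroup.subset_closure (Or.inl (Or.inl ⟨1, by simp⟩))
  have a2 : el n12 (1 : R) ∈ grp ι t :=
    Subgroup.subset_closure (Or.inl (Or.inr ⟨1, by simp⟩))
  have a3 : el n20 t ∈ grp ι t := Subgroup.subset_closure (Or.inr ⟨1, by simp⟩)
  induction k with
  | zero => simpa using ⟨a1, a2, a3⟩
  | succ k ih =>
    obtain ⟨-, -, b3⟩ := ih
    have c02 := el_mem n20.symm a1 a2
    have c10 := el_mem n01.symm a2 b3
    have c10' := el_mem n01.symm a2 a3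
    have c21 := el_mem n12.symm b3 a1
    refine ⟨?_, ?_, ?_⟩
    · simpa using el_mem n01 c02 c21
    · simpa using el_mem n12 c10 c02
    · simpa [pow_succ] using el_mem n20 c21 c10'

theorem card_grp_le {S : Type} [CommRing S] [Finite R] [Finite S] (ι : F →+* R) (t : R)
    (π : R →+* S) :
    Nat.card (grp ι t) ≤ Nat.card π.toAddMonoidHom.ker ^ 9 * Nat.card (grp (π.comp ι) (π t)) := by
  have hel : ∀ {i j : Fin 3} (h : i ≠ j) (c : R),
      SpecialLinearGroup.map π (el h c) = el h (π c) := by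
    intro i j h c
    apply cm_inj
    ext a b
    show π (cm (el h c) a b) = _
    simp [el_coe, Matrix.one_apply, single_apply, apply_ite π]
  have hmap : grp ι t ≤ (grp (π.comp ι) (π t)).comap (SpecialLinearGroup.map π) := by
    rw [grp, Subgroup.closure_le]
    rintro _ ((⟨τ, rfl⟩ | ⟨τ, rfl⟩) | ⟨τ, rfl⟩)
    · exact Subgroup.subset_closure (Or.inl (Or.inl ⟨τ, by simp [hel]⟩))
    · exact Subgroup.subset_closure (Or.inl (Or.inr ⟨τ, by simp [hel]⟩))
    · exact Subgroup.subset_closure (Or.inr ⟨τ, by simp [hel]⟩)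
  let f : grp ι t →* grp (π.comp ι) (π t) :=
    ((SpecialLinearGroup.map π).comp (grp ι t).subtype).codRestrict _ fun g => hmap g.2
  have : Finite (SpecialLinearGroup (Fin 3) S) := Subtype.finite
  rw [← f.ker.card_mul_index, Subgroup.index_ker]
  refine Nat.mul_le_mul ?_ (Subgroup.card_le_card_group _)
  let u : f.ker → Fin 3 × Fin 3 → π.toAddMonoidHom.ker := fun g p =>
    ⟨g.1.1.1 p.1 p.2 - (1 : Matrix (Fin 3) (Fin 3) R) p.1 p.2, by
      have h1 : SpecialLinearGroup.map π g.1.1 = 1 := congrArg Subtype.val g.2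
      have h2 := congrFun (congrFun (congrArg Subtype.val h1) p.1) p.2
      have h3 : π (g.1.1.1 p.1 p.2) = (1 : Matrix (Fin 3) (Fin 3) S) p.1 p.2 := h2
      show π _ = 0
      rw [map_sub, h3]
      simp [Matrix.one_apply, apply_ite π]⟩
  have hu : Function.Injective u := by
    intro g g' e
    ext a b
    have := congrArg Subtype.val (congrFun e (a, b))
    exact sub_left_injective this
  simpa [Nat.card_fun] using Nat.card_le_card_of_injective u hu

end Mat

theorem exists_family (F : Type) [Field F] [Fintype F] :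
    ∃ N : ℕ → ℕ, (∀ s, s ≤ N s) ∧ (∀ s, N (s + 1) ≤ Fintype.card F ^ 9 * N s) ∧
      ∀ s, ∃ (G : Type) (_ : Group G) (_ : Fintype G), Fintype.card G = N s ∧ Nonempty (Tri F G) := by
  have fin : ∀ s, Module.Finite F (AdjoinRoot (X ^ s : F[X])) := fun s =>
    (monic_X_pow s).finite_adjoinRoot
  have fin' : ∀ s, Finite (AdjoinRoot (X ^ s : F[X])) := fun s => Module.finite_of_finite F
  have fin'' : ∀ s, Finite (SpecialLinearGroup (Fin 3) (AdjoinRoot (X ^ s : F[X]))) :=
    fun s => Subtype.finite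
  have crd : ∀ s, Nat.card (AdjoinRoot (X ^ s : F[X])) = Fintype.card F ^ s := by
    intro s
    rw [Module.natCard_eq_pow_finrank (K := F), (AdjoinRoot.powerBasis' (monic_X_pow s)).finrank,
      Nat.card_eq_fintype_card]
    simp
  refine ⟨fun s => Nat.card (grp (AdjoinRoot.of (X ^ (s + 2) : F[X])) (AdjoinRoot.root _)),
    fun s => ?_, fun s => ?_, fun s => ?_⟩
  · let u : Fin s → grp (AdjoinRoot.of (X ^ (s + 2) : F[X])) (AdjoinRoot.root _) :=
      fun k => ⟨_, (pow_mem_grp _ _ k).1⟩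
    have hu : Function.Injective u := by
      intro a b e
      have e1 := congrFun (congrFun (congrArg (fun g => cm g.1) e) 0) 1
      simp only [u, el_coe, Matrix.add_apply, single_apply_same, add_right_inj] at e1
      rw [← AdjoinRoot.mk_X, ← map_pow, ← map_pow, AdjoinRoot.mk_eq_mk, X_pow_dvd_iff] at e1
      have := e1 a (by omega)
      rw [coeff_sub, coeff_X_pow, coeff_X_pow, if_pos rfl] at this
      by_contra hab
      rw [if_neg (fun h => hab (Fin.ext h))] at this
      simp at this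
    simpa using Nat.card_le_card_of_injective u hu
  · have hd : (X ^ (s + 2) : F[X]) ∣ X ^ (s + 1 + 2) := pow_dvd_pow X (by omega)
    let π : AdjoinRoot (X ^ (s + 1 + 2) : F[X]) →+* AdjoinRoot (X ^ (s + 2) : F[X]) :=
      (AdjoinRoot.algHomOfDvd F _ _ hd).toRingHom
    have h1 : π.comp (AdjoinRoot.of _) = AdjoinRoot.of _ :=
      RingHom.ext fun a => (AdjoinRoot.algHomOfDvd F _ _ hd).commutes a
    have h2 : π (AdjoinRoot.root _) = AdjoinRoot.root _ := AdjoinRoot.algHomOfDvd_root _ _ hd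
    have h3 : Function.Surjective π := by
      intro y
      obtain ⟨p, rfl⟩ := AdjoinRoot.mk_surjective y
      refine ⟨AdjoinRoot.mk _ p, ?_⟩
      rw [← AdjoinRoot.aeval_eq, ← AdjoinRoot.aeval_eq, ← h2]
      exact (aeval_algHom_apply (AdjoinRoot.algHomOfDvd F _ _ hd) _ p).symm
    have h4 := card_grp_le (AdjoinRoot.of _) (AdjoinRoot.root _) π
    rw [h1, h2] at h4
    have h5 := π.toAddMonoidHom.ker.card_mul_index
    rw [AddSubgroup.index_ker, (AddMonoidHom.range_eq_top (f := π.toAddMonoidHom)).2 h3,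
      AddSubgroup.card_top, crd, crd,
      show Fintype.card F ^ (s + 1 + 2) = Fintype.card F * Fintype.card F ^ (s + 2) by ring] at h5
    have q0 := Fintype.card_pos (α := F)
    rwa [Nat.eq_of_mul_eq_mul_right (by positivity) h5] at h4
  · refine ⟨_, inferInstance, Fintype.ofFinite _,
      (@Nat.card_eq_fintype_card _ (Fintype.ofFinite _)).symm, grp_tri _ _ fun a e => ?_⟩
    rw [← AdjoinRoot.mk_X, ← AdjoinRoot.mk_C, ← map_mul, AdjoinRoot.mk_eq_zero, X_pow_dvd_iff] at e
    simpa using e 1 (by omega)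

end Pool.Agent.Lib.MP_97bd52_lc
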