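import Mathlib
import Pool.Agent.Lib.MP_97bd52_lc.Dist

namespace Pool.Agent.Lib.MP_97bd52_lc

open Module Matrix

/-- A family of sparse matrices in which every row and column depends on one hidden coordinate. -/
structure Fam {G F I J K : Type} [Zero K] (d : ℕ) (A : (G → F) → Matrix I J K) : Prop where
  row : ∀ c i, ∃ s : Finset J, s.card ≤ d ∧ ∀ j, A c i j ≠ 0 → j ∈ s
  col : ∀ c j, ∃ s : Finset I, s.card ≤ d ∧ ∀ i, A c i j ≠ 0 → i ∈ s
  drow : ∀ i, ∃ g, ∀ c c', c g = c' g → ∀ j, A c i j = A c' i j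
  dcol : ∀ j, ∃ g, ∀ c c', c g = c' g → ∀ i, A c i j = A c' i j

section Check

variable {F G : Type} [Field F] [Group G] [Fintype F] [Fintype G] [DecidableEq G]

/-- Parity check matrix of the Tanner code. -/
def chk (x : Fin 3 → F → G) (k : Fin 3 → ℕ) :
    Matrix (Fin 3 × G × Fin (Fintype.card F)) G F := fun p g' =>
  ∑ a : F, if p.2.1 * x p.1 a = g' then (if p.2.2.1 < Fintype.card F - k p.1 then a ^ p.2.2.1 else 0)
    else 0

theorem ker_chk (x : Fin 3 → F → G) (k : Fin 3 → ℕ) (hk : ∀ i, k i ≤ Fintype.card F) (f : G → F) :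
    f ∈ LinearMap.ker (chk x k).mulVecLin ↔ ∀ i, f ∈ line (x i) (k i) := by
  have key : ∀ p, (chk x k *ᵥ f) p = if p.2.2.1 < Fintype.card F - k p.1 then
      ∑ a : F, a ^ p.2.2.1 * f (p.2.1 * x p.1 a) else 0 := by
    intro p
    simp only [mulVec, dotProduct, chk, Finset.sum_mul, ite_mul, zero_mul]
    rw [Finset.sum_comm]
    simp only [Finset.sum_ite_eq, Finset.mem_univ, if_true]
    split_ifs <;> simp
  show chk x k *ᵥ f = 0 ↔ ∀ i g, (fun a => f (g * x i a)) ∈ RS F (k i)
  simp only [fun i => @mem_RS_iff_checks F _ _ _ (hk i)]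
  constructor
  · intro h i g e he
    have := congrFun h (i, g, ⟨e, by omega⟩)
    rwa [key, if_pos he] at this
  · intro h
    funext p
    rw [key]
    split_ifs with hp
    · exact h _ _ _ hp
    · rfl

omit [Fintype G] in
theorem chk_ne {x : Fin 3 → F → G} {k : Fin 3 → ℕ} {p} {g' : G} (h : chk x k p g' ≠ 0) :
    ∃ a, p.2.1 * x p.1 a = g' := by
  obtain ⟨a, -, ha⟩ := Finset.exists_ne_zero_of_sum_ne_zero h
  exact ⟨a, by by_contra h'; exact ha (if_neg h')⟩

omit [Fintype G] in
theorem chk_row (x : Fin 3 → F → G) (k : Fin 3 → ℕ) (p) :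
    ∃ s : Finset G, s.card ≤ 3 * Fintype.card F ^ 2 ∧ ∀ g', chk x k p g' ≠ 0 → g' ∈ s := by
  refine ⟨Finset.univ.image fun a => p.2.1 * x p.1 a, Finset.card_image_le.trans ?_, fun g' h => ?_⟩
  · have := Fintype.card_pos (α := F)
    rw [Finset.card_univ]
    nlinarith
  · simpa using chk_ne h

omit [Fintype G] in
theorem chk_col (x : Fin 3 → F → G) (k : Fin 3 → ℕ) (g' : G) :
    ∃ s : Finset (Fin 3 × G × Fin (Fintype.card F)), s.card ≤ 3 * Fintype.card F ^ 2 ∧
      ∀ p, chk x k p g' ≠ 0 → p ∈ s := by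
  refine ⟨Finset.univ.image fun t : Fin 3 × F × Fin (Fintype.card F) =>
    (t.1, g' * (x t.1 t.2.1)⁻¹, t.2.2), Finset.card_image_le.trans ?_, fun p h => ?_⟩
  · simp [sq]
  · obtain ⟨a, ha⟩ := chk_ne h
    exact Finset.mem_image.2 ⟨(p.1, a, p.2.2), Finset.mem_univ _, by simp [← ha]⟩

omit [Fintype G] in
theorem fam_blk (x : Fin 3 → F → G) (k l : Fin 3 → ℕ) :
    Fam (3 * Fintype.card F ^ 2 + 1) (blk (chk x k) (chk x l)) := by
  refine ⟨?_, ?_, ?_, ?_⟩
  · rintro c (p | g)
    · obtain ⟨s, hs, h⟩ := chk_row x k p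
      refine ⟨s.image Sum.inl, Finset.card_image_le.trans (by omega), ?_⟩
      rintro (g' | p') hj
      · exact Finset.mem_image_of_mem _ (h _ hj)
      · exact absurd rfl hj
    · obtain ⟨s, hs, h⟩ := chk_col x l g
      refine ⟨insert (Sum.inl g) (s.image Sum.inr), (Finset.card_insert_le _ _).trans
        (Nat.succ_le_succ (Finset.card_image_le.trans hs)), ?_⟩
      rintro (g' | p') hj
      · have : g = g' := by
          by_contra hg
          exact hj (diagonal_apply_ne c hg)
        simp [this]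
      · exact Finset.mem_insert_of_mem (Finset.mem_image_of_mem _ (h _ hj))
  · rintro c (g | p)
    · obtain ⟨s, hs, h⟩ := chk_col x k g
      refine ⟨insert (Sum.inr g) (s.image Sum.inl), (Finset.card_insert_le _ _).trans
        (Nat.succ_le_succ (Finset.card_image_le.trans hs)), ?_⟩
      rintro (p' | g') hj
      · exact Finset.mem_insert_of_mem (Finset.mem_image_of_mem _ (h _ hj))
      · have : g' = g := by
          by_contra hg
          exact hj (diagonal_apply_ne c hg)
        simp [this]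
    · obtain ⟨s, hs, h⟩ := chk_row x l p
      refine ⟨s.image Sum.inr, Finset.card_image_le.trans (by omega), ?_⟩
      rintro (p' | g') hj
      · exact absurd rfl hj
      · exact Finset.mem_image_of_mem _ (h _ hj)
  · rintro (p | g)
    · exact ⟨1, fun c c' _ j => by rcases j with j | j <;> rfl⟩
    · refine ⟨g, fun c c' h j => ?_⟩
      rcases j with j | j
      · show diagonal c g j = diagonal c' g j
        simp [diagonal_apply, h]
      · rfl
  · rintro (g | p)
    · refine ⟨g, fun c c' h j => ?_⟩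
      rcases j with j | j
      · rfl
      · show diagonal c j g = diagonal c' j g
        by_cases e : j = g
        · simp [e, h]
        · simp [diagonal_apply_ne _ e]
    · exact ⟨1, fun c c' _ j => by rcases j with j | j <;> rfl⟩

end Check

section Expand

variable {k F : Type} [Field k] [Field F] [Algebra k F] {ι : Type} [Fintype ι] (b : Basis ι k F)
  {I J : Type}

/-- Replace every entry by the matrix of multiplication in the basis `b`. -/
noncomputable def expand (M : Matrix I J F) : Matrix (Σ _ : I, ι) (Σ _ : J, ι) k :=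
  fun p r => b.repr (M p.1 r.1 * b r.2) p.2

theorem rank_expand [Fintype I] [Fintype J] (M : Matrix I J F) :
    (expand b M).rank = Fintype.card ι * M.rank := by
  classical
  have : Module.Finite k F := Module.Finite.of_basis b
  have e : expand b M = LinearMap.toMatrix (Pi.basis fun _ : J => b) (Pi.basis fun _ : I => b)
      (M.mulVecLin.restrictScalars k) := by
    ext p r
    simp [expand, LinearMap.toMatrix_apply, Pi.basis_apply, mul_comm]
  rw [Matrix.rank_eq_finrank_range_toLin _ (Pi.basis fun _ : I => b) (Pi.basis fun _ : J => b), e,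
    Matrix.toLin_toMatrix, LinearMap.range_restrictScalars, Matrix.rank,
    ← Module.finrank_eq_card_basis b, Module.finrank_mul_finrank]
  rfl

theorem Fam.expand {G : Type} {d : ℕ} {A : (G → F) → Matrix I J F} (h : Fam d A) :
    Fam (d * Fintype.card ι) fun c => expand b (A c) := by
  refine ⟨fun c p => ?_, fun c r => ?_, fun p => ?_, fun r => ?_⟩
  · obtain ⟨s, hs, h'⟩ := h.row c p.1
    refine ⟨s.sigma fun _ => Finset.univ, by simpa using Nat.mul_le_mul_right _ hs, fun r hr => ?_⟩
    simp only [Finset.mem_sigma, Finset.mem_univ, and_true]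
    exact h' _ fun e => hr (by simp [Pool.Agent.Lib.MP_97bd52_lc.expand, e])
  · obtain ⟨s, hs, h'⟩ := h.col c r.1
    refine ⟨s.sigma fun _ => Finset.univ, by simpa using Nat.mul_le_mul_right _ hs, fun p hp => ?_⟩
    simp only [Finset.mem_sigma, Finset.mem_univ, and_true]
    exact h' _ fun e => hp (by simp [Pool.Agent.Lib.MP_97bd52_lc.expand, e])
  · obtain ⟨g, hg⟩ := h.drow p.1
    exact ⟨g, fun c c' e r => by simp only [Pool.Agent.Lib.MP_97bd52_lc.expand, hg c c' e]⟩
  · obtain ⟨g, hg⟩ := h.dcol r.1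
    exact ⟨g, fun c c' e p => by simp only [Pool.Agent.Lib.MP_97bd52_lc.expand, hg c c' e]⟩

end Expand

section Pad

variable {k I J I' J' : Type} [Field k] [Fintype I] [Fintype J] [DecidableEq I'] [DecidableEq J']
  (e : I ↪ I') (f : J ↪ J')

/-- Padding by zero rows and columns. -/
def pad (M : Matrix I J k) : Matrix I' J' k :=
  fun i j => ∑ a, ∑ b, if e a = i ∧ f b = j then M a b else 0

theorem pad_apply (M : Matrix I J k) (a : I) (b : J) : pad e f M (e a) (f b) = M a b := by
  classical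
  simp [pad, ite_and]

theorem pad_ne {M : Matrix I J k} {i : I'} {j : J'} (h : pad e f M i j ≠ 0) :
    ∃ a b, e a = i ∧ f b = j ∧ M a b ≠ 0 := by
  obtain ⟨a, -, ha⟩ := Finset.exists_ne_zero_of_sum_ne_zero h
  obtain ⟨b, -, hb⟩ := Finset.exists_ne_zero_of_sum_ne_zero ha
  by_cases h' : e a = i ∧ f b = j
  · exact ⟨a, b, h'.1, h'.2, by rwa [if_pos h'] at hb⟩
  · exact absurd (if_neg h') hb

theorem rank_pad [Fintype J'] (M : Matrix I J k) : (pad e f M).rank = M.rank := by
  apply le_antisymm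
  · have : pad e f M = (Matrix.of fun i a => if e a = i then (1 : k) else 0) * M *
        Matrix.of fun b j => if f b = j then (1 : k) else 0 := by
      ext i j
      simp only [pad, Matrix.mul_apply, of_apply, Finset.sum_mul]
      rw [Finset.sum_comm]
      refine Finset.sum_congr rfl fun b _ => Finset.sum_congr rfl fun a _ => ?_
      by_cases h1 : e a = i <;> by_cases h2 : f b = j <;> simp [h1, h2]
    rw [this]
    exact (rank_mul_le_left _ _).trans (rank_mul_le_right _ _)
  · have : M = (pad e f M).submatrix e f := by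
      ext a b
      simp [pad_apply]
    conv_lhs => rw [this]
    exact rank_submatrix_le _ _ _

theorem Fam.pad {G F : Type} [Nonempty G] {d : ℕ} {A : (G → F) → Matrix I J k} (h : Fam d A) :
    Fam d fun c => pad e f (A c) := by
  refine ⟨fun c i => ?_, fun c j => ?_, fun i => ?_, fun j => ?_⟩
  · by_cases hi : ∃ a, e a = i
    · obtain ⟨a, rfl⟩ := hi
      obtain ⟨s, hs, h'⟩ := h.row c a
      refine ⟨s.map f, by simpa using hs, fun j hj => ?_⟩
      obtain ⟨a', b, e1, rfl, e3⟩ := pad_ne e f hj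
      rw [e.injective e1] at e3
      exact Finset.mem_map_of_mem _ (h' _ e3)
    · refine ⟨∅, by simp, fun j hj => ?_⟩
      obtain ⟨a', b, e1, -⟩ := pad_ne e f hj
      exact absurd ⟨a', e1⟩ hi
  · by_cases hj : ∃ b, f b = j
    · obtain ⟨b, rfl⟩ := hj
      obtain ⟨s, hs, h'⟩ := h.col c b
      refine ⟨s.map e, by simpa using hs, fun i hi => ?_⟩
      obtain ⟨a', b', rfl, e2, e3⟩ := pad_ne e f hi
      rw [f.injective e2] at e3
      exact Finset.mem_map_of_mem _ (h' _ e3)
    · refine ⟨∅, by simp, fun i hi => ?_⟩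
      obtain ⟨a', b, -, e2, -⟩ := pad_ne e f hi
      exact absurd ⟨b, e2⟩ hj
  · by_cases hi : ∃ a, e a = i
    · obtain ⟨a, rfl⟩ := hi
      obtain ⟨g, hg⟩ := h.drow a
      refine ⟨g, fun c c' e' j => ?_⟩
      refine Finset.sum_congr rfl fun a' _ => Finset.sum_congr rfl fun b _ => ?_
      split_ifs with h'
      · rw [e.injective h'.1, hg c c' e']
      · rfl
    · refine ⟨Classical.arbitrary G, fun c c' _ j => ?_⟩
      refine Finset.sum_congr rfl fun a' _ => Finset.sum_congr rfl fun b _ => ?_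
      rw [if_neg fun h' => hi ⟨a', h'.1⟩, if_neg fun h' => hi ⟨a', h'.1⟩]
  · by_cases hj : ∃ b, f b = j
    · obtain ⟨b, rfl⟩ := hj
      obtain ⟨g, hg⟩ := h.dcol b
      refine ⟨g, fun c c' e' i => ?_⟩
      refine Finset.sum_congr rfl fun a' _ => Finset.sum_congr rfl fun b' _ => ?_
      split_ifs with h'
      · rw [f.injective h'.2, hg c c' e']
      · rfl
    · refine ⟨Classical.arbitrary G, fun c c' _ i => ?_⟩
      refine Finset.sum_congr rfl fun a' _ => Finset.sum_congr rfl fun b _ => ?_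
      rw [if_neg fun h' => hj ⟨b, h'.2⟩, if_neg fun h' => hj ⟨b, h'.2⟩]

end Pad

/-- The hard family over the big field. -/
theorem Tri.hard {F G : Type} [Field F] [Group G] [Fintype F] [Fintype G] [DecidableEq G]
    [CharP F 2] (T : Tri F G) (hq : Fintype.card F = 2 ^ 120) :
    ∃ (A : (G → F) → Matrix ((Fin 3 × G × Fin (Fintype.card F)) ⊕ G)
        (G ⊕ (Fin 3 × G × Fin (Fintype.card F))) F) (W : Submodule F (G → F)) (c0 : G → F)
        (r gap : ℕ), Fam (3 * Fintype.card F ^ 2 + 1) A ∧ Fintype.card G ≤ 2 ^ 31 * gap ∧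
      (∀ S : Finset G, 2 ^ 55 * S.card < Fintype.card G → Onto W S) ∧
      ∀ c ∈ W, (A c).rank = r ∧ (A (c0 + c)).rank = r + gap := by
  classical
  obtain ⟨k1, k2, k3, l1, l2, l3, a1, a2, a3, b1, b2, b3, K, hK, hU, hV, hm⟩ :=
    T.exists_codes (j := 102) (μ := 2 ^ 102) rfl (by rw [hq]; norm_num)
  have kc : ∀ k1 k2 k3, k1 ≤ Fintype.card F → k2 ≤ Fintype.card F → k3 ≤ Fintype.card F →
      LinearMap.ker (chk ![T.h1.x, T.h2.x, T.h3.x] ![k1, k2, k3]).mulVecLin = T.code k1 k2 k3 := by
    intro k1 k2 k3 a1 a2 a3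
    ext f
    rw [ker_chk _ _ (by simp [Fin.forall_fin_succ, a1, a2, a3])]
    simp [Fin.forall_fin_succ, Tri.code, and_assoc]
  set Z := T.code (Fintype.card F - 2 ^ 102) (Fintype.card F - 2 ^ 102) (Fintype.card F - 2 ^ 102)
  obtain ⟨c0, r, hr⟩ := rank_gap (chk ![T.h1.x, T.h2.x, T.h3.x] ![k1, k2, k3])
    (chk ![T.h1.x, T.h2.x, T.h3.x] ![l1, l2, l3]) (perp Z) K (by
      rw [kc _ _ _ a1 a2 a3, kc _ _ _ b1 b2 b3]
      intro c hc u hu v hv
      rw [← hc _ (hm u hu v hv)]
      simp only [dotProduct, mulVec_diagonal, dotProductBilin, LinearMap.coe_mk, AddHom.coe_mk]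
      exact Finset.sum_congr rfl fun i _ => by ring)
    (by rwa [kc _ _ _ a1 a2 a3]) (by rwa [kc _ _ _ b1 b2 b3])
  refine ⟨_, perp Z, c0, r, K.card, fam_blk _ _ _, hK, fun S hS => onto_perp fun z hz h => ?_, hr⟩
  by_contra h0
  have := T.distance (ε := 1 / 2 ^ 60) (δ := 1 / 2 ^ 18) (μ := 2 ^ 102) (by positivity)
    (by norm_num) (by rw [hq]; norm_num) (by positivity) (by rw [hq]; norm_num) hz h0
  have h1 : (Finset.univ.filter fun g => z g ≠ 0).card ≤ S.card :=
    Finset.card_le_card fun g hg => by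
      by_contra hg'
      exact (Finset.mem_filter.1 hg).2 (h g hg')
  have h2 : ((Finset.univ.filter fun g => z g ≠ 0).card : ℝ) ≤ S.card := by exact_mod_cast h1
  have h3 : (2 : ℝ) ^ 55 * S.card < Fintype.card G := by exact_mod_cast hS
  have h4 : (0 : ℝ) ≤ S.card := by positivity
  norm_num at this h3
  linarith

end Pool.Agent.Lib.MP_97bd52_lc
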