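import Mathlib
import Pool.Agent.Lib.MP_97bd52_lc.Defs
import Pool.Agent.Lib.MP_97bd52_lc.Hard
import Pool.Agent.Lib.MP_97bd52_lc.Groups

namespace Pool.Agent.Lib.MP_97bd52_lc

open MeasureTheory

theorem exists_cube {G F : Type} [DecidableEq G] {p m n d : ℕ}
    {A : (G → F) → Matrix (Fin m) (Fin n) (ZMod p)} (h : Fam d A) (T : Alg p m n) :
    ∃ S : (G → F) → Finset G, ∀ c, (S c).card ≤ T.queries (A c) ∧
      ∀ c', (∀ g ∈ S c, c g = c' g) → S c' = S c ∧ T.output (A c') = T.output (A c) := by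
  induction T with
  | out r => exact ⟨fun _ => ∅, fun c => ⟨by simp, fun _ _ => ⟨rfl, rfl⟩⟩⟩
  | row i k ih =>
    choose S hS using ih
    obtain ⟨g, hg⟩ := h.drow i
    refine ⟨fun c => insert g (S (fun j => A c i j) c), fun c => ⟨?_, fun c' hc => ?_⟩⟩
    · exact (Finset.card_insert_le _ _).trans (Nat.succ_le_succ (hS _ c).1)
    · have e : (fun j => A c' i j) = fun j => A c i j :=
        funext fun j => (hg c c' (hc g (Finset.mem_insert_self _ _)) j).symm
      have := (hS (fun j => A c i j) c).2 c' fun g' hg' => hc g' (Finset.mem_insert_of_mem hg')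
      simp only [Alg.output, e, this.1, this.2, and_self]
  | col j k ih =>
    choose S hS using ih
    obtain ⟨g, hg⟩ := h.dcol j
    refine ⟨fun c => insert g (S (fun i => A c i j) c), fun c => ⟨?_, fun c' hc => ?_⟩⟩
    · exact (Finset.card_insert_le _ _).trans (Nat.succ_le_succ (hS _ c).1)
    · have e : (fun i => A c' i j) = fun i => A c i j :=
        funext fun i => (hg c c' (hc g (Finset.mem_insert_self _ _)) i).symm
      have := (hS (fun i => A c i j) c).2 c' fun g' hg' => hc g' (Finset.mem_insert_of_mem hg')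
      simp only [Alg.output, e, this.1, this.2, and_self]

open Classical in
theorem card_shift {G F : Type} [Field F] [Fintype F] [Fintype G] (W : Submodule F (G → F))
    (S : (G → F) → Finset G) (E : (G → F) → Prop) (hW : ∀ c, Onto W (S c))
    (hS : ∀ c c', (∀ g ∈ S c, c g = c' g) → S c' = S c ∧ (E c' ↔ E c)) (c0 : G → F) :
    (Finset.univ.filter fun w => w ∈ W ∧ E (c0 + w)).card =
      (Finset.univ.filter fun w => w ∈ W ∧ E w).card := by
  let cls : (G → F) → Finset G × (G → F) := fun c => (S c, fun g => if g ∈ S c then c g else 0)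
  have hcls : ∀ c c', cls c' = cls c ↔ ∀ g ∈ S c, c g = c' g := by
    intro c c'
    constructor
    · intro e g hg
      have e1 : S c' = S c := congrArg Prod.fst e
      have e2 := congrFun (congrArg Prod.snd e) g
      simp only [cls, e1, if_pos hg] at e2
      exact e2.symm
    · intro e
      have e1 := (hS c c' e).1
      refine Prod.ext e1 (funext fun g => ?_)
      simp only [cls, e1]
      split_ifs with hg
      · exact (e g hg).symm
      · rfl
  have key : ∀ c0 : G → F, (Finset.univ.filter fun w => w ∈ W ∧ E (c0 + w)).card =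
      ∑ κ ∈ (Finset.univ.filter E).image cls,
        (Finset.univ.filter fun w => w ∈ W ∧ cls (c0 + w) = κ).card := by
    intro c0
    rw [Finset.card_eq_sum_card_fiberwise (f := fun w => cls (c0 + w))
      (t := (Finset.univ.filter E).image cls)]
    · refine Finset.sum_congr rfl fun κ hκ => ?_
      obtain ⟨c1, h1, rfl⟩ := Finset.mem_image.1 hκ
      congr 1
      ext w
      simp only [Finset.mem_filter, Finset.mem_univ, true_and] at h1 ⊢
      exact ⟨fun h => ⟨h.1.1, h.2⟩, fun h => ⟨⟨h.1, (hS _ _ ((hcls _ _).1 h.2)).2.2 h1⟩, h.2⟩⟩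
    · intro w hw
      simp only [Finset.coe_filter, Finset.mem_univ, true_and, Set.mem_ofPred_eq] at hw
      exact Finset.mem_coe.2 (Finset.mem_image_of_mem _ (by simpa using hw.2))
  have k0 := key 0
  simp only [zero_add] at k0
  rw [key c0, k0]
  refine Finset.sum_congr rfl fun κ hκ => ?_
  obtain ⟨c1, -, rfl⟩ := Finset.mem_image.1 hκ
  obtain ⟨w0, hw0, e0⟩ := hW c1 c0
  simp only [hcls]
  refine Finset.card_nbij' (fun w => w0 + w) (fun w => w - w0) ?_ ?_ ?_ ?_
  · intro w hw
    simp only [Finset.coe_filter, Finset.mem_univ, true_and, Set.mem_ofPred_eq] at hw ⊢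
    exact ⟨W.add_mem hw0 hw.1, fun g hg => by rw [hw.2 g hg, Pi.add_apply, Pi.add_apply, e0 g hg]⟩
  · intro w hw
    simp only [Finset.coe_filter, Finset.mem_univ, true_and, Set.mem_ofPred_eq] at hw ⊢
    exact ⟨W.sub_mem hw.1 hw0, fun g hg => by
      rw [hw.2 g hg, Pi.add_apply, Pi.sub_apply, e0 g hg]; ring⟩
  · intro w _
    simp
  · intro w _
    simp

theorem Fam.sparse {G F : Type} {p m n d : ℕ} {A : (G → F) → Matrix (Fin m) (Fin n) (ZMod p)}
    (h : Fam d A) (c : G → F) : Sparse d (A c) := by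
  constructor
  · intro i
    obtain ⟨s, hs, h'⟩ := h.row c i
    exact (Set.ncard_le_ncard (t := (s : Set _)) (fun x hx => h' x hx) s.finite_toSet).trans (by simpa using hs)
  · intro j
    obtain ⟨s, hs, h'⟩ := h.col c j
    exact (Set.ncard_le_ncard (t := (s : Set _)) (fun x hx => h' x hx) s.finite_toSet).trans (by simpa using hs)

theorem yao {G F : Type} [Field F] [Fintype F] [Fintype G] {p m n d Q : ℕ}
    {A : (G → F) → Matrix (Fin m) (Fin n) (ZMod p)} (h : Fam d A) (W : Submodule F (G → F))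
    (c0 : G → F) (r0 r1 : ℕ) (η : ℝ) (hW : ∀ S : Finset G, S.card ≤ Q → Onto W S)
    (hr : ∀ c ∈ W, (A c).rank = r0 ∧ (A (c0 + c)).rank = r1) (hη : r0 + 2 * η < r1)
    {Ω : Type} [MeasurableSpace Ω] (μ : Measure Ω) [IsProbabilityMeasure μ] (T : Ω → Alg p m n)
    (hQ : ∀ c ω, (T ω).queries (A c) ≤ Q)
    (hT : ∀ c, MeasurableSet {ω | |(T ω).output (A c) - (A c).rank| ≤ η} ∧
      2 / 3 ≤ μ.real {ω | |(T ω).output (A c) - (A c).rank| ≤ η}) : False := by
  classical
  let s : (G → F) → Set Ω := fun c => {ω | |(T ω).output (A c) - (A c).rank| ≤ η}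
  let Wf : Finset (G → F) := Finset.univ.filter fun w => w ∈ W
  have pt : ∀ ω, ∑ w ∈ Wf, ((s w).indicator (1 : Ω → ℝ) ω + (s (c0 + w)).indicator 1 ω) ≤
      Wf.card := by
    intro ω
    obtain ⟨S, hS⟩ := exists_cube h (T ω)
    have e := card_shift W S (fun c => (T ω).output (A c) ≤ r0 + η)
      (fun c => hW _ ((hS c).1.trans (hQ c ω)))
      (fun c c' e => ⟨((hS c).2 c' e).1, by rw [((hS c).2 c' e).2]⟩) c0
    have a1 : ∑ w ∈ Wf, (s w).indicator (1 : Ω → ℝ) ω ≤
        ∑ w ∈ Wf, if (T ω).output (A w) ≤ r0 + η then (1 : ℝ) else 0 := by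
      refine Finset.sum_le_sum fun w hw => ?_
      by_cases hs : ω ∈ s w
      · have h1 : |(T ω).output (A w) - (A w).rank| ≤ η := hs
        rw [(hr w (Finset.mem_filter.1 hw).2).1, abs_le] at h1
        rw [Set.indicator_of_mem hs, if_pos (by linarith)]
        rfl
      · rw [Set.indicator_of_notMem hs]
        split_ifs <;> norm_num
    have a2 : ∑ w ∈ Wf, (s (c0 + w)).indicator (1 : Ω → ℝ) ω ≤
        ∑ w ∈ Wf, (1 - if (T ω).output (A (c0 + w)) ≤ r0 + η then (1 : ℝ) else 0) := by
      refine Finset.sum_le_sum fun w hw => ?_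
      by_cases hs : ω ∈ s (c0 + w)
      · have h1 : |(T ω).output (A (c0 + w)) - (A (c0 + w)).rank| ≤ η := hs
        rw [(hr w (Finset.mem_filter.1 hw).2).2, abs_le] at h1
        rw [Set.indicator_of_mem hs, if_neg (by linarith)]
        simp
      · rw [Set.indicator_of_notMem hs]
        split_ifs <;> norm_num
    have e' : ∑ w ∈ Wf, (if (T ω).output (A (c0 + w)) ≤ r0 + η then (1 : ℝ) else 0) =
        ∑ w ∈ Wf, if (T ω).output (A w) ≤ r0 + η then (1 : ℝ) else 0 := by
      simp only [Finset.sum_boole, Wf, Finset.filter_filter]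
      rw [Nat.cast_inj]
      refine Eq.trans ?_ (e.trans ?_) <;> exact congrArg Finset.card (by ext; simp)
    rw [Finset.sum_sub_distrib, e'] at a2
    rw [Finset.sum_add_distrib]
    simp only [Finset.sum_const, nsmul_eq_mul, mul_one] at a2
    linarith
  have int : ∀ c, Integrable ((s c).indicator (1 : Ω → ℝ)) μ := fun c =>
    (integrable_const (1 : ℝ)).indicator (hT c).1
  have h1 := integral_mono (μ := μ)
    (integrable_finsetSum Wf fun w _ => (int w).add (int (c0 + w))) (integrable_const _) pt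
  rw [integral_finsetSum _ fun w _ => (int w).add (int (c0 + w))] at h1
  have h2 : ∑ _w ∈ Wf, (4 / 3 : ℝ) ≤
      ∑ w ∈ Wf, ∫ ω, ((s w).indicator (1 : Ω → ℝ) + (s (c0 + w)).indicator (1 : Ω → ℝ)) ω ∂μ := by
    refine Finset.sum_le_sum fun w _ => ?_
    rw [integral_add' (int w) (int (c0 + w)), integral_indicator_one (hT w).1,
      integral_indicator_one (hT (c0 + w)).1]
    linarith [(hT w).2, (hT (c0 + w)).2]
  have h3 : (0 : ℝ) < Wf.card := by
    exact_mod_cast Finset.card_pos.2 ⟨0, by simp [Wf]⟩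
  simp only [Finset.sum_const, nsmul_eq_mul, integral_const, probReal_univ, smul_eq_mul,
    one_mul] at h1 h2
  linarith

end Pool.Agent.Lib.MP_97bd52_lc
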