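import Mathlib
import Pool.Agent.Lib.MP_97bd52_lc.Tree

namespace Pool.Agent.Lib.MP_97bd52_lc

open MeasureTheory

theorem exists_scale {N : ℕ → ℕ} {C D : ℕ} (hD : 0 < D) (h1 : ∀ s, s ≤ N s)
    (h2 : ∀ s, N (s + 1) ≤ C * N s) {n : ℕ} (hn : D * N 0 ≤ n) :
    ∃ s, D * N s ≤ n ∧ n ≤ C * D * N s := by
  classical
  have ex : ∃ s, n < D * N s := ⟨n + 1, by have := h1 (n + 1); nlinarith⟩
  obtain ⟨s, hs⟩ : ∃ s, Nat.find ex = s + 1 := by
    apply Nat.exists_eq_succ_of_ne_zero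
    intro h0
    have := Nat.find_spec ex
    rw [h0] at this
    omega
  have a1 := hs ▸ Nat.find_spec ex
  have a2 := Nat.find_min ex (show s < Nat.find ex by omega)
  refine ⟨s, by omega, a1.le.trans ?_⟩
  calc D * N (s + 1) ≤ D * (C * N s) := Nat.mul_le_mul_left _ (h2 s)
    _ = _ := by ring

theorem main : ∃ (d : ℕ) (ε c : ℝ), 0 < ε ∧ 0 < c ∧ ∃ n₀ : ℕ, ∀ n ≥ n₀,
    ∀ (Ω : Type) [MeasurableSpace Ω] (μ : Measure Ω) [IsProbabilityMeasure μ]
      (T : Ω → Alg 2 n n) (Q : ℕ),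
      (∀ A, Sparse d A → ∀ ω, (T ω).queries A ≤ Q) →
      (∀ A, Sparse d A → MeasurableSet {ω | |(T ω).output A - A.rank| ≤ ε * n} ∧
        2 / 3 ≤ μ.real {ω | |(T ω).output A - A.rank| ≤ ε * n}) →
      c * n ≤ Q := by
  classical
  have : Fact (Nat.Prime 2) := ⟨Nat.prime_two⟩
  let F := GaloisField 2 120
  let _ : Fintype F := Fintype.ofFinite F
  have hq : Fintype.card F = 2 ^ 120 := by
    rw [← Nat.card_eq_fintype_card, GaloisField.card 2 120 (by norm_num)]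
  have hb : Module.finrank (ZMod 2) F = 120 := GaloisField.finrank 2 (by norm_num)
  let b := Module.finBasisOfFinrankEq (ZMod 2) F hb
  obtain ⟨N, h1, h2, h3⟩ := exists_family F
  obtain ⟨D, hD⟩ : ∃ D, D = (3 * Fintype.card F + 1) * 120 := ⟨_, rfl⟩
  obtain ⟨C, hC⟩ : ∃ C, C = Fintype.card F ^ 9 := ⟨_, rfl⟩
  have D0 : 0 < D := by rw [hD]; positivity
  have C0 : 0 < C := by rw [hC, hq]; positivity
  have D0' : (0 : ℝ) < D := by exact_mod_cast D0
  have C0' : (0 : ℝ) < C := by exact_mod_cast C0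
  rw [← hC] at h2
  refine ⟨(3 * Fintype.card F ^ 2 + 1) * Fintype.card (Fin 120), 1 / (2 ^ 31 * C * D),
    1 / (2 ^ 55 * C * D), by positivity, by positivity, D * N 0, fun n hn Ω _ μ _ T Q hQ hT => ?_⟩
  obtain ⟨s, s1, s2⟩ := exists_scale D0 h1 h2 hn
  obtain ⟨G, _, _, hG, ⟨Tr⟩⟩ := h3 s
  obtain ⟨A, W, c0, r, gap, hA, hgap, hW, hr⟩ := Tr.hard hq
  obtain ⟨e⟩ : Nonempty ((Σ _ : (Fin 3 × G × Fin (Fintype.card F)) ⊕ G, Fin 120) ↪ Fin n) := by
    apply Function.Embedding.nonempty_of_card_le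
    refine le_trans (le_of_eq ?_) (s1.trans_eq (Fintype.card_fin n).symm)
    simp [hG, hD]
    ring
  obtain ⟨f⟩ : Nonempty ((Σ _ : G ⊕ (Fin 3 × G × Fin (Fintype.card F)), Fin 120) ↪ Fin n) := by
    apply Function.Embedding.nonempty_of_card_le
    refine le_trans (le_of_eq ?_) (s1.trans_eq (Fintype.card_fin n).symm)
    simp [hG, hD]
    ring
  have hB := (hA.expand b).pad e f
  by_contra hlt
  have G0 : (0 : ℝ) < Fintype.card G := by exact_mod_cast Fintype.card_pos (α := G)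
  have s2' : (n : ℝ) ≤ C * D * Fintype.card G := by rw [hG]; exact_mod_cast s2
  have hQ' : 2 ^ 55 * Q < Fintype.card G := by
    rw [not_le, div_mul_eq_mul_div, one_mul, lt_div_iff₀ (by positivity)] at hlt
    have : (C * D : ℝ) * (2 ^ 55 * Q) < C * D * Fintype.card G := by linarith
    exact_mod_cast lt_of_mul_lt_mul_left this (by positivity)
  refine yao hB W c0 (120 * r) (120 * (r + gap)) (1 / (2 ^ 31 * C * D) * n)
    (fun S hS => hW S (lt_of_le_of_lt (Nat.mul_le_mul_left _ hS) hQ')) (fun c hc => ?_) ?_ μ T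
    (fun c ω => hQ _ (hB.sparse c) ω) (fun c => hT _ (hB.sparse c))
  · simp only [rank_pad, rank_expand, Fintype.card_fin, (hr c hc).1, (hr c hc).2, and_self]
  · have g1 : (Fintype.card G : ℝ) ≤ 2 ^ 31 * gap := by exact_mod_cast hgap
    have g2 : 1 / (2 ^ 31 * C * D : ℝ) * n ≤ gap := by
      rw [div_mul_eq_mul_div, one_mul, div_le_iff₀ (by positivity)]
      nlinarith [mul_le_mul_of_nonneg_left g1 (mul_pos C0' D0').le]
    push_cast
    nlinarith

end Pool.Agent.Lib.MP_97bd52_lc
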